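import Pool.Agent.Y463.VT.GDefs

/-!
# Random exponents in a virtual braid word
-/

set_option autoImplicit false

namespace Pool.Agent.Y463.VT

open Pool.Agent.H891R2.Jones Pool.Agent.W639.RB Pool.Agent.Y463.SK Pool.Agent.Y463.UT
open Pool.Agent.W705.JV (VLetter drawV)

/-- the powers of the generators of the virtual braid group: `σ_i^n` for `inl i`, and for `inr i` the word
of `|n|` virtual crossings at the places `i`, `i + 1` -/
def pwV {m : ℕ} : Fin (m - 1) ⊕ Fin (m - 1) → ℤ → List (VLetter m)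
  | .inl i, n => (powW [(true, i)] n).map Sum.inl
  | .inr i, n => List.replicate n.natAbs (.inr i)

/-- the virtual braid word `a_1^{x_1} a_2^{x_2} ⋯ a_k^{x_k}` -/
def twV {m k : ℕ} (a : Fin k → Fin (m - 1) ⊕ Fin (m - 1)) (x : Fin k → ℤ) : List (VLetter m) := 
  (List.ofFn (fun j => pwV (a j) (x j))).flatten

open Classical in
/-- the number of `j` such that `a_j` and `a_{j+1}` are classical generators at neighbouring places and no
value of `x_j` or `x_{j+1}` has probability larger than `ε` -/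
noncomputable def turnsV {m k : ℕ} (a : Fin k → Fin (m - 1) ⊕ Fin (m - 1)) (μ : Fin k → Law) (ε : ℝ) : ℕ := 
  (Finset.univ.filter (fun j : Fin k => ∃ (h : (j : ℕ) + 1 < k) (p q : Fin (m - 1)), 
    a j = .inl p ∧ a ⟨j + 1, h⟩ = .inl q ∧ ((p : ℕ) + 1 = q ∨ (q : ℕ) + 1 = p) ∧ 
      (μ j).Spread ε ∧ (μ ⟨j + 1, h⟩).Spread ε)).card

end Pool.Agent.Y463.VT
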