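import Pool.Agent.Y463.VT.Func
import Pool.Agent.Y463.VT.Defs
import Pool.Agent.Y463.UT.Link

/-!
# The action of the virtual braid words on the fibred space of subspaces
-/

set_option autoImplicit false

namespace Pool.Agent.Y463.VT

open Finset LaurentPolynomial TensorProduct Pool.Agent.H891R2.Jones Pool.Agent.W639.RB Pool.Agent.Y463.SK 
  Pool.Agent.Y463.RW Pool.Agent.Y463.MP Pool.Agent.Y463.UT
open Pool.Agent.W705.JR (idx_lt inv' sgn sw cst2 push_up push_length)
open Pool.Agent.W705.JV (VLetter virt pushV drawV)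

variable {m : ℕ}

/-! ### nonvanishing -/

/-- the element of a word -/
noncomputable def wV (m : ℕ) (w : List (VLetter m)) : TV m := (w.map (LV m)).prod

theorem wV_cons (x : VLetter m) (w : List (VLetter m)) : wV m (x :: w) = LV m x * wV m w := by
  simp [wV]

/-- the number of real letters -/
def nr : List (VLetter m) → ℕ
  | [] => 0
  | (.inl _ :: w) => nr w + 1
  | (.inr _ :: w) => nr w

section nonvanishing

variable {k : Type} [Field k] {A : k}

theorem psi_wV (hA : A ≠ 0) (h : A ^ 4 + A ^ 2 + 1 = 0) (hm : 0 < m) (w : List (VLetter m)) : 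
    ∀ O : Outer m, psi hA (PhV hm O (wV m w)) = (A + A⁻¹) ^ (O.crossings.length + nr w) := by
  induction w with
  | nil =>
    intro O
    have h1 : wV m ([] : List (VLetter m)) = 1 := rfl
    rw [h1, PhV_one, psi_bracket hA h]
    rfl
  | cons x w ih =>
    intro O
    rw [wV_cons, ← PhV_push, ih]
    rcases x with x | i
    · show (A + A⁻¹) ^ ((O.push x.1 x.2).crossings.length + nr w) = _
      rw [push_length O x.1 x.2 (idx_lt x)]
      show _ = (A + A⁻¹) ^ (O.crossings.length + (nr w + 1))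
      congr 1
      ring
    · rfl

theorem psi_EwV (hA : A ≠ 0) (h : A ^ 4 + A ^ 2 + 1 = 0) (hm : 0 < m) (w : List (VLetter m)) (O : Outer m) 
    (i : ℕ) (hi : i + 1 < m) : 
    psi hA (PhV hm O (EV m i * wV m w)) = (A + A⁻¹) ^ (O.crossings.length + nr w) := by
  have h1 := psi_wV hA h hm (.inl (true, ⟨i, by omega⟩) :: w) O
  have h2 : wV m (.inl (true, ⟨i, by omega⟩) :: w) = 
      (T 1 : ℤ[T;T⁻¹]) • wV m w + (T (-1) : ℤ[T;T⁻¹]) • (EV m i * wV m w) := by
    rw [wV_cons]
    have h3 : LV m (.inl (true, ⟨i, by omega⟩)) = 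
        (T 1 : ℤ[T;T⁻¹]) • (1 : TV m) + (T (-1) : ℤ[T;T⁻¹]) • EV m i := by
      rw [LV_inl]
      unfold ltr
      simp
    rw [h3, add_mul, smul_mul_assoc, smul_mul_assoc, one_mul]
  have h4 : nr ((.inl (true, ⟨i, by omega⟩) : VLetter m) :: w) = nr w + 1 := rfl
  rw [h2, map_add, map_smul, map_smul, smul_eq_mul, smul_eq_mul, map_add, map_mul, map_mul, 
    psi_wV hA h hm w O, psi_T, psi_T, zpow_one, zpow_neg_one, h4, ← add_assoc, pow_succ] at h1
  have h6 : A⁻¹ * psi hA (PhV hm O (EV m i * wV m w)) = 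
      A⁻¹ * (A + A⁻¹) ^ (O.crossings.length + nr w) := by
    linear_combination h1
  exact mul_left_cancel₀ (inv_ne_zero hA) h6

end nonvanishing

theorem not_dvdV (l : ℕ) [Fact l.Prime] (hm : 0 < m) (w : List (VLetter m)) (O : Outer m) (i : ℕ) 
    (hi : i + 1 < m) : ¬ (l : ℤ[T;T⁻¹]) ∣ PhV hm O (EV m i * wV m w) := by
  rintro ⟨g, hg⟩
  set k := AlgebraicClosure (ZMod l)
  obtain ⟨A, hA⟩ := IsAlgClosed.exists_root (Polynomial.X ^ 4 + Polynomial.X ^ 2 + 1 : Polynomial k) (by
    have : (Polynomial.X ^ 4 + Polynomial.X ^ 2 + 1 : Polynomial k).degree = 4 := by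
      compute_degree!
    rw [this]; norm_num)
  have h : A ^ 4 + A ^ 2 + 1 = 0 := by
    simpa [Polynomial.IsRoot.def] using hA
  have hA0 : A ≠ 0 := by
    rintro rfl
    simp at h
  have h1 := psi_EwV hA0 h hm w O i hi
  rw [hg, map_mul, map_natCast] at h1
  have h2 : ((l : ℕ) : k) = 0 := by
    have h3 : ((l : ℕ) : k) = algebraMap (ZMod l) k (l : ZMod l) := by rw [map_natCast]
    rw [h3, ZMod.natCast_self, map_zero]
  rw [h2, zero_mul] at h1
  have h3 := sq_one hA0 h
  have h4 : A + A⁻¹ ≠ 0 := by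
    intro h5
    rw [h5] at h3
    simp at h3
  exact pow_ne_zero _ h4 h1.symm

/-! ### the virtual letters on the fibred space -/

section fib

variable (L : Type) [Field L] [Algebra ℤ[T;T⁻¹] L]

/-- the virtual letters on `R × K` -/
noncomputable def hX (i : Fin (m - 1)) : (TVL L m × L) ≃ₗ[L] (TVL L m × L) :=
  LinearEquiv.prodCongr (pM L i) (LinearEquiv.refl L L)

theorem hX_apply (i : Fin (m - 1)) (v : TVL L m × L) : hX L i v = (pM L i v.1, v.2) := rfl

theorem pM_pM (i : Fin (m - 1)) (v : TVL L m) : pM L i (pM L i v) = v := by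
  rw [pM_apply, pM_apply, ← mul_assoc, ← map_mul, PT_sq, map_one, one_mul]

theorem hX_hX (i : Fin (m - 1)) (v : TVL L m × L) : hX L i (hX L i v) = v := by
  rw [hX_apply, hX_apply]
  exact Prod.ext (pM_pM L i v.1) rfl

/-- the virtual letters on the fibred space -/
noncomputable def pX (i : Fin (m - 1)) : Equiv.Perm (XX L (TVL L m × L) (Fin m → Bool)) where
  toFun y := (y.1 ∘ tp i, y.2.map (hX L i : (TVL L m × L) →ₗ[L] (TVL L m × L)))
  invFun y := (y.1 ∘ tp i, y.2.comap (hX L i : (TVL L m × L) →ₗ[L] (TVL L m × L)))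
  left_inv y := by
    refine Prod.ext (tp_tp i y.1) ?_
    exact Submodule.comap_map_eq_of_injective (hX L i).injective y.2
  right_inv y := by
    refine Prod.ext (tp_tp i y.1) ?_
    exact Submodule.map_comap_eq_of_surjective (hX L i).surjective y.2

theorem pX_apply (i : Fin (m - 1)) (y : XX L (TVL L m × L) (Fin m → Bool)) : 
    pX L i y = (y.1 ∘ tp i, y.2.map (hX L i : (TVL L m × L) →ₗ[L] (TVL L m × L))) := rfl

theorem pX_inv_apply (i : Fin (m - 1)) (y : XX L (TVL L m × L) (Fin m → Bool)) : 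
    (pX L i)⁻¹ y = (y.1 ∘ tp i, y.2.comap (hX L i : (TVL L m × L) →ₗ[L] (TVL L m × L))) := rfl

theorem pX_inv (i : Fin (m - 1)) : (pX L i)⁻¹ = pX L i := by
  apply Equiv.ext
  intro y
  rw [pX_apply, pX_inv_apply]
  refine Prod.ext rfl ?_
  apply Submodule.ext
  intro v
  rw [Submodule.mem_comap, Submodule.mem_map]
  constructor
  · intro h
    exact ⟨_, h, hX_hX L i v⟩
  · rintro ⟨w, hw, rfl⟩
    have := hX_hX L i w
    show hX L i (hX L i w) ∈ y.2
    rwa [this]

theorem pX_fib (i : Fin (m - 1)) : FibLin (pX L i) := by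
  have h : FibLin (pX L i)⁻¹ := fun U => ⟨U ∘ tp i, hX L i, fun W => rfl⟩
  rwa [pX_inv] at h

/-- the letters -/
noncomputable def vX : VLetter m → Equiv.Perm (XX L (TVL L m × L) (Fin m → Bool))
  | .inl x => sX (DV L m) x
  | .inr i => pX L i

/-- words -/
noncomputable def wVX (w : List (VLetter m)) : Equiv.Perm (XX L (TVL L m × L) (Fin m → Bool)) := 
  (w.map (vX L)).prod

theorem wVX_nil : wVX L ([] : List (VLetter m)) = 1 := rfl

theorem wVX_cons (x : VLetter m) (w : List (VLetter m)) : wVX L (x :: w) = vX L x * wVX L w := by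
  simp [wVX]

theorem wVX_append (w w' : List (VLetter m)) : wVX L (w ++ w') = wVX L w * wVX L w' := by
  simp [wVX]

/-- the inverse letter -/
def iv : VLetter m → VLetter m
  | .inl x => .inl (inv' x)
  | .inr i => .inr i

theorem iv_iv (x : VLetter m) : iv (iv x) = x := by
  rcases x with x | i
  · show Sum.inl (inv' (inv' x)) = Sum.inl x
    congr 1
    refine Prod.ext ?_ rfl
    show (!(!x.1)) = x.1
    simp
  · rfl

theorem vX_iv (x : VLetter m) : vX L (iv x) = (vX L x)⁻¹ := by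
  rcases x with x | i
  · exact sX_inv' (DV L m) x
  · exact (pX_inv L i).symm

/-- the inverse word -/
def ivW (w : List (VLetter m)) : List (VLetter m) := (w.map iv).reverse

theorem wVX_ivW (w : List (VLetter m)) : wVX L (ivW w) = (wVX L w)⁻¹ := by
  induction w with
  | nil => rfl
  | cons x w ih =>
    have h1 : ivW (x :: w) = ivW w ++ [iv x] := by
      unfold ivW
      rw [List.map_cons, List.reverse_cons]
    have h2 : wVX L [iv x] = vX L (iv x) := by simp [wVX]
    rw [h1, wVX_append, ih, h2, wVX_cons, vX_iv, _root_.mul_inv_rev]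

theorem wVX_inl (w : List (Letter m)) : wVX L (w.map Sum.inl) = wX (DV L m) w := by
  unfold wVX wX
  rw [List.map_map]
  rfl

/-- the points none of whose translates is stable -/
def NXV : Set (XX L (TVL L m × L) (Fin m → Bool)) := 
  {y | ∀ (w : List (VLetter m)) (i : ℕ), i + 1 < m → ¬ StE (DV L m) i (wVX L w y).2}

theorem NXV_sub (y : XX L (TVL L m × L) (Fin m → Bool)) (h : y ∈ NXV L) : y ∈ NX (DV L m) := by
  intro w i hi
  have := h (w.map Sum.inl) i hi
  rwa [wVX_inl] at this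

theorem NXV_word (w : List (VLetter m)) (y : XX L (TVL L m × L) (Fin m → Bool)) (h : wVX L w y ∈ NXV L) : 
    y ∈ NXV L := by
  intro w' i hi
  have h1 := h (w' ++ ivW w) i hi
  have h2 : wVX L (w' ++ ivW w) (wVX L w y) = wVX L w' y := by
    rw [wVX_append, wVX_ivW, Equiv.Perm.mul_apply]
    congr 1
    exact Equiv.symm_apply_apply (wVX L w) y
  rwa [h2] at h1

theorem NXV_bot (hm : 1 < m) (U : Fin m → Bool) : ((U, ⊥) : XX L (TVL L m × L) (Fin m → Bool)) ∉ NXV L := by
  intro h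
  exact NX_bot (DV L m) hm U (NXV_sub L _ h)

/-- the steps -/
noncomputable def sJ : Fin (m - 1) ⊕ Fin (m - 1) → Equiv.Perm (XX L (TVL L m × L) (Fin m → Bool))
  | .inl i => sX (DV L m) (true, i)
  | .inr i => pX L i

theorem sJ_fib (j : Fin (m - 1) ⊕ Fin (m - 1)) : FibLin (sJ (m := m) L j) := by
  rcases j with i | i
  · exact sX_fib (DV L m) (true, i)
  · exact pX_fib L i

theorem wVX_rep (x : VLetter m) (n : ℕ) : wVX L (List.replicate n x) = (vX L x) ^ n := by
  unfold wVX
  rw [List.map_replicate, List.prod_replicate]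

theorem wVX_pwV (j : Fin (m - 1) ⊕ Fin (m - 1)) (n : ℤ) : wVX L (pwV j n) = (sJ L j) ^ n := by
  rcases j with i | i
  · show wVX L ((powW [(true, i)] n).map Sum.inl) = (sX (DV L m) (true, i)) ^ n
    rw [wVX_inl, wX_single]
  · show wVX L (List.replicate n.natAbs (.inr i)) = (pX L i) ^ n
    rw [wVX_rep]
    show (pX L i) ^ n.natAbs = _
    rcases Int.natAbs_eq n with h | h
    · conv_rhs => rw [h]
      exact (zpow_natCast _ _).symm
    · conv_rhs => rw [h]
      rw [zpow_neg, zpow_natCast, ← inv_pow, pX_inv]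

theorem NXV_zpow (j : Fin (m - 1) ⊕ Fin (m - 1)) (n : ℤ) (y : XX L (TVL L m × L) (Fin m → Bool)) 
    (h : (sJ L j ^ n) y ∈ NXV L) : y ∈ NXV L := by
  rw [← wVX_pwV] at h
  exact NXV_word L _ y h

end fib

/-! ### the hyperplanes of the outsides -/

section link

variable (l : ℕ) [Fact l.Prime]

/-- the space -/
abbrev VV (m : ℕ) : Type := TVL (LL l) m × LL l

/-- the data -/
noncomputable abbrev Dv (m : ℕ) : TLD m (LL l) (TVL (LL l) m) := DV (LL l) m

theorem qq_eq (m : ℕ) : (Dv l m).qq = (Dl l m).qq := rfl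

/-- the functional belonging to an outside and a value -/
noncomputable def fV (hm : 0 < m) (O : Outer m) (z : LL l) : VV l m →ₗ[LL l] LL l where
  toFun v := phV (LL l) hm O v.1 - z * (Dv l m).qq ^ (owr O) * v.2
  map_add' v w := by
    rw [Prod.fst_add, Prod.snd_add, map_add]; ring
  map_smul' c v := by
    rw [Prod.smul_fst, Prod.smul_snd, map_smul, smul_eq_mul, smul_eq_mul, RingHom.id_apply]; ring

theorem fV_apply (hm : 0 < m) (O : Outer m) (z : LL l) (v : VV l m) : 
    fV l hm O z v = phV (LL l) hm O v.1 - z * (Dv l m).qq ^ (owr O) * v.2 := rfl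

theorem fV_push (hm : 0 < m) (O : Outer m) (z : LL l) (x : Letter m) (v : VV l m) : 
    fV l hm (O.push x.1 x.2) z v = fV l hm O z (gX (Dv l m) x O.up v) := by
  rw [fV_apply, fV_apply, gX_apply]
  have h1 := phV_push (LL l) hm O x v.1
  have h2 := (push_writhe O x.1 x.2 (idx_lt x)).1
  have h3 : (if x.1 = true then (1:ℤ) else -1) = sgn x.1 := rfl
  rw [h1, h2, h3]
  show _ = phV (LL l) hm O ((Dv l m).s1 x v.1) - 
    z * (Dv l m).qq ^ (owr O) * ((Dv l m).qq ^ (sgn x.1 * cst2 x O.up) * v.2)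
  rw [zpow_add₀ (Dv l m).qq_ne]
  unfold cst2
  ring

theorem fV_virt (hm : 0 < m) (O : Outer m) (z : LL l) (i : Fin (m - 1)) (v : VV l m) : 
    fV l hm (virt O i) z v = fV l hm O z (hX (LL l) i v) := by
  rw [fV_apply, fV_apply, hX_apply, phV_virt]
  rfl

/-- the point of an outside and a value -/
noncomputable def stV (hm : 0 < m) (O : Outer m) (z : LL l) : XX (LL l) (VV l m) (Fin m → Bool) := 
  (O.up, LinearMap.ker (fV l hm O z))

theorem stV_push (hm : 0 < m) (O : Outer m) (z : LL l) (x : VLetter m) : 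
    (vX (LL l) x)⁻¹ (stV l hm O z) = stV l hm (pushV O x) z := by
  rcases x with x | i
  · show (sX (Dv l m) x)⁻¹ (stV l hm O z) = stV l hm (O.push x.1 x.2) z
    rw [sX_inv_apply]
    refine Prod.ext (push_up O x).symm ?_
    apply Submodule.ext
    intro v
    show gX (Dv l m) x O.up v ∈ LinearMap.ker (fV l hm O z) ↔ v ∈ LinearMap.ker (fV l hm (O.push x.1 x.2) z)
    rw [LinearMap.mem_ker, LinearMap.mem_ker, fV_push]
  · show (pX (LL l) i)⁻¹ (stV l hm O z) = stV l hm (virt O i) z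
    rw [pX_inv_apply]
    refine Prod.ext rfl ?_
    apply Submodule.ext
    intro v
    show hX (LL l) i v ∈ LinearMap.ker (fV l hm O z) ↔ v ∈ LinearMap.ker (fV l hm (virt O i) z)
    rw [LinearMap.mem_ker, LinearMap.mem_ker, fV_virt]

theorem stV_word (hm : 0 < m) (z : LL l) : ∀ (w : List (VLetter m)) (O : Outer m), 
    (wVX (LL l) w)⁻¹ (stV l hm O z) = stV l hm (drawV O w) z
  | [], O => rfl
  | (x :: w), O => by
    rw [wVX_cons, _root_.mul_inv_rev, Equiv.Perm.mul_apply, stV_push, stV_word hm z w, drawV_cons]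

/-- the initial vector -/
noncomputable def xiV (m : ℕ) : VV l m := (1, 1)

theorem xiV_mem (hm : 0 < m) (O : Outer m) (z : LL l) : 
    xiV l m ∈ LinearMap.ker (fV l hm O z) ↔ phi l O.close.fPoly = z := by
  have h1 : phV (LL l) hm O (xiV l m).1 = phi l O.close.bracket := by
    have h2 : (xiV l m).1 = inV (LL l) m 1 := by rw [map_one]; rfl
    rw [h2, phV_inV, PhV_one]
    rfl
  rw [LinearMap.mem_ker, fV_apply, h1, phi_fPoly (m := m), close_writhe]
  have h3 : (xiV l m).2 = 1 := rfl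
  rw [h3, mul_one, sub_eq_zero, qq_eq]
  have h4 : (Dl l m).qq ^ owr O ≠ 0 := zpow_ne_zero _ (Dl l m).qq_ne
  rw [inv_mul_eq_iff_eq_mul₀ h4, mul_comm z]

/-- the points below the hyperplanes -/
def WV (hm : 0 < m) : Set (XX (LL l) (VV l m) (Fin m → Bool)) := 
  {y | ∃ (O : Outer m) (z : LL l), O.up = y.1 ∧ y.2 ≤ LinearMap.ker (fV l hm O z)}

theorem WV_inv (hm : 0 < m) (y : XX (LL l) (VV l m) (Fin m → Bool)) (hy : y ∈ WV l hm) (x : VLetter m) : 
    (vX (LL l) x)⁻¹ y ∈ WV l hm := by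
  obtain ⟨O, z, h1, h2⟩ := hy
  rcases x with x | i
  · refine ⟨O.push x.1 x.2, z, ?_, ?_⟩
    · rw [push_up, h1]; rfl
    · intro v hv
      have hv' : v ∈ ((sX (Dv l m) x)⁻¹ y).2 := hv
      rw [sX_inv_apply] at hv'
      have h3 : gX (Dv l m) x y.1 v ∈ y.2 := hv'
      have h4 := h2 h3
      rw [LinearMap.mem_ker] at h4 ⊢
      rw [fV_push, h1]
      exact h4
  · refine ⟨virt O i, z, ?_, ?_⟩
    · have h5 : (virt O i).up = O.up ∘ tp i := rfl
      rw [h5, h1]
      rfl
    · intro v hv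
      have hv' : v ∈ ((pX (LL l) i)⁻¹ y).2 := hv
      rw [pX_inv_apply] at hv'
      have h3 : hX (LL l) i v ∈ y.2 := hv'
      have h4 := h2 h3
      rw [LinearMap.mem_ker] at h4 ⊢
      rw [fV_virt]
      exact h4

theorem WV_act (hm : 0 < m) (y : XX (LL l) (VV l m) (Fin m → Bool)) (hy : y ∈ WV l hm) (x : VLetter m) : 
    vX (LL l) x y ∈ WV l hm := by
  have h1 := WV_inv l hm y hy (iv x)
  have h2 := vX_iv (LL l) (iv x)
  rw [iv_iv] at h2
  rwa [← h2] at h1

theorem WV_word (hm : 0 < m) (w : List (VLetter m)) (y : XX (LL l) (VV l m) (Fin m → Bool)) 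
    (hy : y ∈ WV l hm) : wVX (LL l) w y ∈ WV l hm := by
  induction w with
  | nil => exact hy
  | cons x w ih => 
    rw [wVX_cons, Equiv.Perm.mul_apply]
    exact WV_act l hm _ ih x

theorem WV_zpow (hm : 0 < m) (y : XX (LL l) (VV l m) (Fin m → Bool)) 
    (hy : y ∈ WV l hm) (j : Fin (m - 1) ⊕ Fin (m - 1)) (n : ℤ) : (sJ (LL l) j ^ n) y ∈ WV l hm := by
  rw [← wVX_pwV]
  exact WV_word l hm _ y hy

theorem mem_wordV (w : List (VLetter m)) (y : XX (LL l) (VV l m) (Fin m → Bool)) (v : VV l m) 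
    (hv : v ∈ y.2) : ∃ c : LL l, ((inV (LL l) m (wV m w) * v.1, c) : VV l m) ∈ (wVX (LL l) w y).2 := by
  induction w with
  | nil =>
    refine ⟨v.2, ?_⟩
    have h1 : wV m ([] : List (VLetter m)) = 1 := rfl
    rw [h1, map_one, one_mul]
    exact hv
  | cons x w ih =>
    obtain ⟨c, hc⟩ := ih
    rw [wVX_cons, Equiv.Perm.mul_apply]
    set y' := wVX (LL l) w y with hy'
    rcases x with x | i
    · refine ⟨(Dv l m).qq ^ (sgn x.1 * cst2 x (y'.1 ∘ sw x)) * c, ?_⟩
      show _ ∈ y'.2.map (gX (Dv l m) x (y'.1 ∘ sw x) : VV l m →ₗ[LL l] VV l m)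
      rw [Submodule.mem_map]
      refine ⟨_, hc, ?_⟩
      show gX (Dv l m) x (y'.1 ∘ sw x) _ = _
      rw [gX_apply]
      refine Prod.ext ?_ rfl
      show sg ((Dv l m).Bb x.1) (Dv l m).e x.2 * (inV (LL l) m (wV m w) * v.1) = 
        inV (LL l) m (wV m (.inl x :: w)) * v.1
      rw [sg_eqV, wV_cons, map_mul, mul_assoc]
    · refine ⟨c, ?_⟩
      show _ ∈ y'.2.map (hX (LL l) i : VV l m →ₗ[LL l] VV l m)
      rw [Submodule.mem_map]
      refine ⟨_, hc, ?_⟩
      show hX (LL l) i _ = _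
      rw [hX_apply]
      refine Prod.ext ?_ rfl
      show pM (LL l) i (inV (LL l) m (wV m w) * v.1) = inV (LL l) m (wV m (.inr i :: w)) * v.1
      rw [pM_apply, wV_cons, map_mul, mul_assoc]
      rfl

theorem WV_xi (hm : 0 < m) (y : XX (LL l) (VV l m) (Fin m → Bool)) (hy : y ∈ WV l hm) 
    (hN : y ∉ NXV (LL l)) : xiV l m ∉ y.2 := by
  intro hxi
  apply hN
  intro w i hi hS
  obtain ⟨O, z, _, h⟩ := WV_word l hm w y hy
  obtain ⟨c, hc⟩ := mem_wordV l w y (xiV l m) hxi
  have h2 := h (hS _ hc)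
  rw [LinearMap.mem_ker, fV_apply] at h2
  have h4 : (Dv l m).e i * (inV (LL l) m (wV m w) * (xiV l m).1) = inV (LL l) m (EV m i * wV m w) := by
    have h5 : (xiV l m).1 = 1 := rfl
    rw [map_mul, h5, mul_one]
    rfl
  simp only [h4, mul_zero, sub_zero] at h2
  rw [phV_inV, algebraMap_LL, phi_zero_iff] at h2
  exact not_dvdV l hm w O i hi h2

end link

end Pool.Agent.Y463.VT
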