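import Pool.Agent.Y463.VT.Op
import Mathlib.RingTheory.Localization.Submodule

/-!
# The algebra is finitely generated as a module
-/

set_option autoImplicit false

namespace Pool.Agent.Y463.VT

open Finset LaurentPolynomial Pool.Agent.H891R2.Jones Pool.Agent.W639.RB Pool.Agent.Y463.SK 
  Pool.Agent.Y463.RW Pool.Agent.Y463.MP

variable {m : ℕ}

/-- the colours of the `2 m` points -/
abbrev cl {N : ℕ} (a b : Fin m → Fin N) : Fin m ⊕ Fin m → Fin N := Sum.elim a b

/-- the colouring satisfies the relation -/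
def Sat {N : ℕ} (R : Set ((Fin m ⊕ Fin m) × (Fin m ⊕ Fin m))) (a b : Fin m → Fin N) : Prop := 
  ∀ p ∈ R, cl a b p.1 = cl a b p.2

open Classical in
/-- the operator of a relation -/
noncomputable def XR (R : Set ((Fin m ⊕ Fin m) × (Fin m ⊕ Fin m))) : BB m := fun N => 
  { toFun := fun g a => ∑ b, if Sat R a b then g b else 0
    map_add' := fun g h => by
      funext a
      show (∑ b, if Sat R a b then g b + h b else 0) = 
        (∑ b, if Sat R a b then g b else 0) + ∑ b, if Sat R a b then h b else 0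
      rw [← Finset.sum_add_distrib]
      refine Finset.sum_congr rfl fun b _ => ?_
      split_ifs
      · rfl
      · rw [add_zero]
    map_smul' := fun r g => by
      funext a
      show (∑ b, if Sat R a b then r • g b else 0) = r • ∑ b, if Sat R a b then g b else 0
      rw [Finset.smul_sum]
      refine Finset.sum_congr rfl fun b _ => ?_
      split_ifs
      · rfl
      · rw [smul_zero] }

open Classical in
theorem XR_apply (R : Set ((Fin m ⊕ Fin m) × (Fin m ⊕ Fin m))) (N : {N : ℕ // 3 ≤ N}) 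
    (g : (Fin m → Fin N.1) → ((Fin m → Fin N.1) → ℂ)) (a : Fin m → Fin N.1) : 
    XR R N g a = ∑ b, if Sat R a b then g b else 0 := rfl

theorem one_eq : ∃ R, (1 : BB m) = XR R := by
  classical
  refine ⟨{p | ∃ j, p = (Sum.inl j, Sum.inr j)}, ?_⟩
  funext N
  apply LinearMap.ext
  intro g
  funext a
  rw [XR_apply, Finset.sum_eq_single a]
  · rw [if_pos]
    · rfl
    · rintro p ⟨j, rfl⟩
      rfl
  · intro b _ hb
    rw [if_neg]
    intro h
    apply hb
    funext j
    exact (h _ ⟨j, rfl⟩).symm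
  · intro h
    exact absurd (Finset.mem_univ _) h

theorem P_mul (i : Fin (m - 1)) (R : Set ((Fin m ⊕ Fin m) × (Fin m ⊕ Fin m))) : 
    ∃ R', PB m i * XR R = XR R' := by
  classical
  set s : Fin m ⊕ Fin m → Fin m ⊕ Fin m := Sum.map (tp i) id with hs
  refine ⟨{p | ∃ q ∈ R, p = (s q.1, s q.2)}, ?_⟩
  funext N
  apply LinearMap.ext
  intro g
  funext a
  show XR R N g (a ∘ tp i) = _
  rw [XR_apply, XR_apply]
  refine Finset.sum_congr rfl fun b _ => ?_
  have hc : ∀ p, cl (a ∘ tp i) b p = cl a b (s p) := by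
    intro p
    rcases p with p | p <;> rfl
  have h1 : Sat R (a ∘ tp i) b ↔ Sat {p | ∃ q ∈ R, p = (s q.1, s q.2)} a b := by
    constructor
    · rintro h p ⟨q, hq, rfl⟩
      have := h q hq
      rw [hc, hc] at this
      exact this
    · intro h q hq
      rw [hc, hc]
      exact h _ ⟨q, hq, rfl⟩
  simp only [h1]

theorem ev_dl (N : {N : ℕ // 3 ≤ N}) : ev N.1 N.2 (-(T 1)^2 - (T (-1))^2 : ℤ[T;T⁻¹]) = (N.1 : ℂ) := by
  rw [map_sub, map_neg, map_pow, map_pow, ev_T1, ev_Tm1, ← Ar_d N.1 N.2]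

theorem E_mul (i : ℕ) (hi : i + 1 < m) (R : Set ((Fin m ⊕ Fin m) × (Fin m ⊕ Fin m))) : 
    ∃ R', EB m i * XR R = XR R' ∨ EB m i * XR R = (-(T 1)^2 - (T (-1))^2 : ℤ[T;T⁻¹]) • XR R' := by
  classical
  set p0 : Fin m := ⟨i, Nat.lt_of_succ_lt hi⟩ with hp0
  set p1 : Fin m := ⟨i + 1, hi⟩ with hp1
  set In : Fin m ⊕ Fin m → Prop := fun p => p = Sum.inl p0 ∨ p = Sum.inl p1 with hIn
  set B : Set (Fin m ⊕ Fin m) := {q | ¬ In q ∧ ∃ p, In p ∧ ((p, q) ∈ R ∨ (q, p) ∈ R)} with hB
  set R' : Set ((Fin m ⊕ Fin m) × (Fin m ⊕ Fin m)) := 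
    {p | p = (Sum.inl p0, Sum.inl p1) ∨ (p ∈ R ∧ ¬ In p.1 ∧ ¬ In p.2) ∨ (p.1 ∈ B ∧ p.2 ∈ B)} with hR'
  have hcl : ∀ (N : ℕ) (a b : Fin m → Fin N) (c : Fin N) (p : Fin m ⊕ Fin m), 
      cl (upd a p0 p1 c) b p = if In p then c else cl a b p := by
    intro N a b c p
    rcases p with p | p
    · show upd a p0 p1 c p = _
      unfold upd
      simp only [hIn, Sum.inl.injEq]
      rfl
    · have : ¬ In (Sum.inr p) := by simp [hIn]
      rw [if_neg this]
      rfl
  have hsat : ∀ (N : ℕ) (a b : Fin m → Fin N) (c : Fin N), Sat R (upd a p0 p1 c) b ↔ 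
      (∀ p ∈ R, ¬ In p.1 → ¬ In p.2 → cl a b p.1 = cl a b p.2) ∧ ∀ q ∈ B, c = cl a b q := by
    intro N a b c
    constructor
    · intro h
      refine ⟨fun p hp h1 h2 => ?_, fun q hq => ?_⟩
      · have := h p hp
        rw [hcl, hcl, if_neg h1, if_neg h2] at this
        exact this
      · obtain ⟨hq1, p, hp, h3 | h3⟩ := hq
        · have := h _ h3
          simp only [hcl, if_pos hp, if_neg hq1] at this
          exact this
        · have := h _ h3
          simp only [hcl, if_pos hp, if_neg hq1] at this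
          exact this.symm
    · rintro ⟨h1, h2⟩ p hp
      rw [hcl, hcl]
      by_cases h3 : In p.1 <;> by_cases h4 : In p.2
      · rw [if_pos h3, if_pos h4]
      · rw [if_pos h3, if_neg h4]
        exact h2 _ ⟨h4, p.1, h3, Or.inl hp⟩
      · rw [if_neg h3, if_pos h4]
        exact (h2 _ ⟨h3, p.2, h4, Or.inr hp⟩).symm
      · rw [if_neg h3, if_neg h4]
        exact h1 p hp h3 h4
  have hval : ∀ (N : {N : ℕ // 3 ≤ N}) (g : (Fin m → Fin N.1) → ((Fin m → Fin N.1) → ℂ)) 
      (a : Fin m → Fin N.1), (EB m i * XR R) N g a = 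
        ∑ b, (if a p0 = a p1 then ∑ c, if Sat R (upd a p0 p1 c) b then g b else 0 else 0) := by
    intro N g a
    have h1 : (EB m i * XR R) N g a = ee m N.1 ((Fin m → Fin N.1) → ℂ) i (XR R N g) a := rfl
    rw [h1]
    unfold ee
    rw [dif_pos hi, EE_apply]
    split_ifs with h2
    · simp only [XR_apply]
      rw [Finset.sum_comm]
    · simp
  rcases B.eq_empty_or_nonempty with hBe | ⟨q0, hq0⟩
  · refine ⟨R', Or.inr ?_⟩
    funext N
    apply LinearMap.ext
    intro g
    funext a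
    rw [hval, BB_smul, ev_dl]
    show _ = (N.1 : ℂ) • XR R' N g a
    rw [XR_apply, Finset.smul_sum]
    refine Finset.sum_congr rfl fun b _ => ?_
    have hR'' : Sat R' a b ↔ a p0 = a p1 ∧ 
        ∀ p ∈ R, ¬ In p.1 → ¬ In p.2 → cl a b p.1 = cl a b p.2 := by
      constructor
      · intro h
        exact ⟨h _ (Or.inl rfl), fun p hp h1 h2 => h p (Or.inr (Or.inl ⟨hp, h1, h2⟩))⟩
      · rintro ⟨h1, h2⟩ p (rfl | ⟨h3, h4, h5⟩ | ⟨h3, _⟩)
        · exact h1
        · exact h2 p h3 h4 h5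
        · rw [hBe] at h3
          exact absurd h3 (Set.notMem_empty _)
    have hsat' : ∀ c, Sat R (upd a p0 p1 c) b ↔ 
        ∀ p ∈ R, ¬ In p.1 → ¬ In p.2 → cl a b p.1 = cl a b p.2 := by
      intro c
      rw [hsat, hBe]
      simp
    simp only [hsat', hR'']
    by_cases h1 : a p0 = a p1
    · by_cases h2 : ∀ p ∈ R, ¬ In p.1 → ¬ In p.2 → cl a b p.1 = cl a b p.2
      · rw [if_pos h1, if_pos h2, if_pos ⟨h1, h2⟩, Finset.sum_const, Finset.card_univ, Fintype.card_fin, 
          Nat.cast_smul_eq_nsmul]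
      · rw [if_pos h1, if_neg h2, if_neg (fun h => h2 h.2)]
        simp
    · rw [if_neg h1, if_neg (fun h => h1 h.1), smul_zero]
  · refine ⟨R', Or.inl ?_⟩
    funext N
    apply LinearMap.ext
    intro g
    funext a
    rw [hval, XR_apply]
    refine Finset.sum_congr rfl fun b _ => ?_
    have hR'' : Sat R' a b ↔ a p0 = a p1 ∧ 
        (∀ p ∈ R, ¬ In p.1 → ¬ In p.2 → cl a b p.1 = cl a b p.2) ∧ ∀ q ∈ B, cl a b q0 = cl a b q := by
      constructor
      · intro h
        exact ⟨h _ (Or.inl rfl), fun p hp h1 h2 => h p (Or.inr (Or.inl ⟨hp, h1, h2⟩)), 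
          fun q hq => h (q0, q) (Or.inr (Or.inr ⟨hq0, hq⟩))⟩
      · rintro ⟨h1, h2, h6⟩ p (rfl | ⟨h3, h4, h5⟩ | ⟨h3, h4⟩)
        · exact h1
        · exact h2 p h3 h4 h5
        · rw [← h6 _ h3, ← h6 _ h4]
    rw [hR'']
    by_cases h1 : a p0 = a p1
    · by_cases h2 : ∀ p ∈ R, ¬ In p.1 → ¬ In p.2 → cl a b p.1 = cl a b p.2
      · by_cases h3 : ∀ q ∈ B, cl a b q0 = cl a b q
        · rw [if_pos h1, if_pos ⟨h1, h2, h3⟩, Finset.sum_eq_single (cl a b q0)]
          · rw [if_pos ((hsat N.1 a b _).2 ⟨h2, h3⟩)]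
          · intro c _ hc
            rw [if_neg]
            intro h
            exact hc (((hsat N.1 a b c).1 h).2 q0 hq0)
          · intro h
            exact absurd (Finset.mem_univ _) h
        · rw [if_pos h1, if_neg (fun h => h3 h.2.2)]
          refine Finset.sum_eq_zero fun c _ => ?_
          rw [if_neg]
          intro h
          have h4 := ((hsat N.1 a b c).1 h).2
          exact h3 fun q hq => (h4 q0 hq0).symm.trans (h4 q hq)
      · rw [if_pos h1, if_neg (fun h => h2 h.2.1)]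
        refine Finset.sum_eq_zero fun c _ => ?_
        rw [if_neg]
        intro h
        exact h2 ((hsat N.1 a b c).1 h).1
    · rw [if_neg h1, if_neg (fun h => h1 h.1)]

/-- the span of the operators of relations -/
noncomputable def SR (m : ℕ) : Submodule ℤ[T;T⁻¹] (BB m) := 
  Submodule.span ℤ[T;T⁻¹] (Set.range (XR (m := m)))

theorem TV_le (x : BB m) (hx : x ∈ TV m) : ∀ y ∈ SR m, x * y ∈ SR m := by
  have hgen : ∀ e : BB m, (∀ R, e * XR R ∈ SR m) → ∀ y ∈ SR m, e * y ∈ SR m := by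
    intro e he y hy
    unfold SR at hy
    induction hy using Submodule.span_induction with
    | zero => rw [mul_zero]; exact Submodule.zero_mem _
    | add a b _ _ ha hb => rw [mul_add]; exact Submodule.add_mem _ ha hb
    | smul r a _ ha => rw [mul_smul_comm]; exact Submodule.smul_mem _ _ ha
    | mem b hb => obtain ⟨R, rfl⟩ := hb; exact he R
  induction hx using Algebra.adjoin_induction with
  | mem b hb => 
    rcases hb with ⟨i, rfl⟩ | ⟨i, rfl⟩
    · apply hgen
      intro R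
      rcases Nat.lt_or_ge (i + 1) m with hi | hi
      · obtain ⟨R', h | h⟩ := E_mul i hi R
        · rw [h]; exact Submodule.subset_span ⟨R', rfl⟩
        · rw [h]; exact Submodule.smul_mem _ _ (Submodule.subset_span ⟨R', rfl⟩)
      · rw [EB_zero m i hi, zero_mul]; exact Submodule.zero_mem _
    · apply hgen
      intro R
      obtain ⟨R', h⟩ := P_mul i R
      rw [h]; exact Submodule.subset_span ⟨R', rfl⟩
  | algebraMap r => 
    intro y hy
    rw [Algebra.algebraMap_eq_smul_one, smul_mul_assoc, one_mul]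
    exact Submodule.smul_mem _ _ hy
  | add b c _ _ hb hc => 
    intro y hy
    rw [add_mul]
    exact Submodule.add_mem _ (hb y hy) (hc y hy)
  | mul b c _ _ hb hc => 
    intro y hy
    rw [mul_assoc]
    exact hb _ (hc y hy)

instance : IsNoetherianRing ℤ[T;T⁻¹] := 
  IsLocalization.isNoetherianRing (Submonoid.powers (Polynomial.X : Polynomial ℤ)) _ inferInstance

theorem finite_TV (m : ℕ) : Module.Finite ℤ[T;T⁻¹] (TV m) := by
  have h1 : (Subalgebra.toSubmodule (TV m)) ≤ SR m := by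
    intro x hx
    obtain ⟨R, hR⟩ := one_eq (m := m)
    have h2 := TV_le x hx 1 (by rw [hR]; exact Submodule.subset_span ⟨R, rfl⟩)
    rwa [mul_one] at h2
  have h3 : (SR m).FG := by
    unfold SR
    exact Submodule.fg_span (Set.finite_range _)
  have h4 : IsNoetherian ℤ[T;T⁻¹] (SR m) := isNoetherian_of_fg_of_noetherian _ h3
  have h5 : (Subalgebra.toSubmodule (TV m)).FG := by
    exact (isNoetherian_submodule.1 h4) _ h1
  exact Module.Finite.iff_fg.2 h5

/-- the number of generators of the module -/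
noncomputable def rV (m : ℕ) : ℕ := 
  Classical.choose (@Module.Finite.exists_fin' ℤ[T;T⁻¹] (TV m) _ _ _ (finite_TV m))

theorem exists_gen (m : ℕ) : ∃ f : (Fin (rV m) → ℤ[T;T⁻¹]) →ₗ[ℤ[T;T⁻¹]] (TV m), Function.Surjective f :=
  Classical.choose_spec (@Module.Finite.exists_fin' ℤ[T;T⁻¹] (TV m) _ _ _ (finite_TV m))

end Pool.Agent.Y463.VT
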