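import Pool.Agent.Y463.VT.Dim

/-!
# The algebra over a field
-/

set_option autoImplicit false

namespace Pool.Agent.Y463.VT

open Finset LaurentPolynomial TensorProduct Pool.Agent.H891R2.Jones Pool.Agent.W639.RB Pool.Agent.Y463.SK 
  Pool.Agent.Y463.RW Pool.Agent.Y463.MP
open Pool.Agent.W705.JR (idx_lt)
open Pool.Agent.W705.JV (VLetter virt pushV drawV)

variable {m : ℕ}

/-- the generators -/
noncomputable def EV (m : ℕ) (i : ℕ) : TV m := ⟨EB m i, Algebra.subset_adjoin (Or.inl ⟨i, rfl⟩)⟩

/-- the transpositions -/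
noncomputable def PT (m : ℕ) (i : Fin (m - 1)) : TV m := ⟨PB m i, Algebra.subset_adjoin (Or.inr ⟨i, rfl⟩)⟩

theorem PT_sq (i : Fin (m - 1)) : PT m i * PT m i = 1 := Subtype.ext (PB_sq i)

theorem LV_inl (x : Letter m) : LV m (.inl x) = ltr (T 1 : ℤ[T;T⁻¹]) (T (-1)) (EV m) (x.1, (x.2 : ℕ)) := rfl

theorem LV_inr (i : Fin (m - 1)) : LV m (.inr i) = PT m i := rfl

theorem isTL_EV (m : ℕ) : IsTLr m (-(T 1)^2 - (T (-1))^2 : ℤ[T;T⁻¹]) (EV m) where
  sq i hi := Subtype.ext ((isTLr_EB m).sq i hi)
  up i hi := Subtype.ext ((isTLr_EB m).up i hi)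
  down i hi := Subtype.ext ((isTLr_EB m).down i hi)
  far i j hj hij := Subtype.ext ((isTLr_EB m).far i j hj hij)

variable (L : Type) [Field L] [Algebra ℤ[T;T⁻¹] L]

/-- the algebra over `L` -/
abbrev TVL (m : ℕ) : Type := L ⊗[ℤ[T;T⁻¹]] (TV m)

/-- the inclusion -/
noncomputable def inV (m : ℕ) : TV m →ₐ[ℤ[T;T⁻¹]] TVL L m := Algebra.TensorProduct.includeRight

theorem inV_smul (r : ℤ[T;T⁻¹]) (b : TV m) : 
    inV L m (r • b) = (algebraMap ℤ[T;T⁻¹] L r) • inV L m b := by
  rw [map_smul, algebraMap_smul]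

theorem inV_tmul (c : L) (b : TV m) : (c ⊗ₜ[ℤ[T;T⁻¹]] b : TVL L m) = c • inV L m b := by
  show _ = c • ((1 : L) ⊗ₜ[ℤ[T;T⁻¹]] b)
  rw [TensorProduct.smul_tmul', smul_eq_mul, mul_one]

/-- the data -/
noncomputable def DV (m : ℕ) : TLD m L (TVL L m) where
  a := algebraMap ℤ[T;T⁻¹] L (T 1)
  e i := inV L m (EV m i)
  a_ne := algT_ne L
  rel := by
    constructor
    · intro i hi
      rw [← map_mul, (isTL_EV m).sq i hi, inV_smul, algT_inv]
      congr 1
      rw [map_sub, map_neg, map_pow, map_pow]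
    · intro i hi
      rw [← map_mul, ← map_mul, (isTL_EV m).up i hi]
    · intro i hi
      rw [← map_mul, ← map_mul, (isTL_EV m).down i hi]
    · intro i j hj hij
      rw [← map_mul, ← map_mul, (isTL_EV m).far i j hj hij]

theorem sg_eqV (x : Letter m) : sg ((DV L m).Bb x.1) (DV L m).e x.2 = inV L m (LV m (.inl x)) := by
  have ha : (DV L m).a = algebraMap ℤ[T;T⁻¹] L (T 1) := rfl
  rw [LV_inl]
  unfold ltr TLD.Bb sg
  rcases x with ⟨p, i⟩
  cases p
  · simp only [Bool.false_eq_true, if_false, inv_inv]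
    rw [map_add, inV_smul, inV_smul, map_one, ha, algT_inv]
    rfl
  · simp only [if_true]
    rw [map_add, inV_smul, inV_smul, map_one, ha, algT_inv]
    rfl

/-- the functional over `L` -/
noncomputable def phV (hm : 0 < m) (O : Outer m) : TVL L m →ₗ[L] L := 
  (TensorProduct.AlgebraTensorModule.rid ℤ[T;T⁻¹] L L).toLinearMap ∘ₗ (PhV hm O).baseChange L

theorem phV_inV (hm : 0 < m) (O : Outer m) (b : TV m) : 
    phV L hm O (inV L m b) = algebraMap ℤ[T;T⁻¹] L (PhV hm O b) := by
  unfold phV inV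
  rw [LinearMap.comp_apply]
  show (TensorProduct.AlgebraTensorModule.rid ℤ[T;T⁻¹] L L) ((PhV hm O).baseChange L 
    ((1 : L) ⊗ₜ[ℤ[T;T⁻¹]] b)) = _
  rw [LinearMap.baseChange_tmul, TensorProduct.AlgebraTensorModule.rid_tmul, Algebra.smul_def, mul_one]

theorem phV_mul (hm : 0 < m) (O : Outer m) (x : VLetter m) (v : TVL L m) : 
    phV L hm (pushV O x) v = phV L hm O (inV L m (LV m x) * v) := by
  induction v using TensorProduct.induction_on with
  | zero => rw [mul_zero, map_zero, map_zero]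
  | add v w hv hw => rw [map_add, mul_add, map_add, hv, hw]
  | tmul c b =>
    rw [inV_tmul, map_smul, mul_smul_comm, map_smul, phV_inV, PhV_push, ← map_mul, phV_inV]

theorem phV_push (hm : 0 < m) (O : Outer m) (x : Letter m) (v : TVL L m) : 
    phV L hm (O.push x.1 x.2) v = phV L hm O ((DV L m).s1 x v) := by
  have h := phV_mul L hm O (.inl x) v
  rw [TLD.s1_apply, sg_eqV]
  exact h

/-- left multiplication with a transposition -/
noncomputable def pM (i : Fin (m - 1)) : TVL L m ≃ₗ[L] TVL L m := 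
  LinearEquiv.ofInvolutive 
    { toFun := fun v => inV L m (PT m i) * v
      map_add' := fun v w => mul_add _ v w
      map_smul' := fun c v => mul_smul_comm c _ v } 
    (fun v => by
      show inV L m (PT m i) * (inV L m (PT m i) * v) = v
      rw [← mul_assoc, ← map_mul, PT_sq, map_one, one_mul])

theorem pM_apply (i : Fin (m - 1)) (v : TVL L m) : pM L i v = inV L m (PT m i) * v := rfl

theorem phV_virt (hm : 0 < m) (O : Outer m) (i : Fin (m - 1)) (v : TVL L m) : 
    phV L hm (virt O i) v = phV L hm O (pM L i v) := phV_mul L hm O (.inr i) v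

theorem finrank_TVL (m : ℕ) : Module.Finite L (TVL L m) ∧ Module.finrank L (TVL L m) ≤ rV m := by
  classical
  obtain ⟨f, hf⟩ := exists_gen m
  have hspan : (⊤ : Submodule L (TVL L m)) ≤ 
      Submodule.span L (Set.range (fun j : Fin (rV m) => inV L m (f (Pi.single j 1)))) := by
    intro v _
    induction v using TensorProduct.induction_on with
    | zero => exact Submodule.zero_mem _
    | add v w hv hw => exact Submodule.add_mem _ (hv trivial) (hw trivial)
    | tmul c b =>
      rw [inV_tmul]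
      apply Submodule.smul_mem
      obtain ⟨r, rfl⟩ := hf b
      have h1 : f r = ∑ j, r j • f (Pi.single j 1) := by
        have h0 : r = ∑ j, r j • (Pi.single j (1 : ℤ[T;T⁻¹]) : Fin (rV m) → ℤ[T;T⁻¹]) := by
          funext k
          simp [Finset.sum_apply, Pi.single_apply]
        conv_lhs => rw [h0]
        rw [map_sum]
        exact Finset.sum_congr rfl fun j _ => map_smul f _ _
      rw [h1, map_sum]
      refine Submodule.sum_mem _ fun j _ => ?_
      rw [inV_smul]
      exact Submodule.smul_mem _ _ (Submodule.subset_span ⟨j, rfl⟩)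
  have htop := top_le_iff.1 hspan
  refine ⟨⟨?_⟩, ?_⟩
  · rw [← htop]
    exact Submodule.fg_span (Set.finite_range _)
  · have h1 := finrank_range_le_card (R := L) (fun j : Fin (rV m) => inV L m (f (Pi.single j 1)))
    rw [Set.finrank, htop, finrank_top, Fintype.card_fin] at h1
    exact h1

end Pool.Agent.Y463.VT
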