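import Pool.Agent.Y463.UT.Defs
import Pool.Agent.W705.JV.Defs

/-!
# Random exponents in a virtual braid word
-/

set_option autoImplicit false

namespace Pool.Agent.Y463.VT

open Pool.Agent.H891R2.Jones Pool.Agent.W639.RB Pool.Agent.Y463.SK Pool.Agent.Y463.UT
open Pool.Agent.W705.JV (VLetter drawV trV)

/-- the virtual braid word `v_1 σ_{i_1}^{x_1} v_2 σ_{i_2}^{x_2} ⋯ v_k σ_{i_k}^{x_k}`, where `v_j` is a word
of virtual crossings, given by the list of their places -/
def twG {m k : ℕ} (v : Fin k → List (Fin (m - 1))) (i : Fin k → Fin (m - 1)) (x : Fin k → ℤ) : 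
    List (VLetter m) := 
  (List.ofFn (fun j => (v j).map Sum.inr ++ (powW [(true, i j)] (x j)).map Sum.inl)).flatten

/-- the diagram with a virtual braid word in the box -/
def diaV {m : ℕ} (O : Outer m) (w : List (VLetter m)) : Diagram (drawV O w).P := (drawV O w).close

/-- the permutation of a word of virtual crossings -/
def pm {m : ℕ} (v : List (Fin (m - 1))) : Equiv.Perm (Fin m) := (v.map (fun i => trV (.inr i))).prod

/-- the places `i`, `i + 1` -/
def pair {m : ℕ} (i : Fin (m - 1)) : Finset (Fin m) := {⟨i, by omega⟩, ⟨i + 1, by omega⟩}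

/-- the pair of the strands which meet in `σ_i` and the pair of the strands which meet in the next twist
region `σ_{i'}`, which is separated from `σ_i` by the word `v` of virtual crossings, have exactly one
strand in common -/
def OneCommon {m : ℕ} (i : Fin (m - 1)) (v : List (Fin (m - 1))) (i' : Fin (m - 1)) : Prop := 
  (pair i ∩ (pair i').map (pm v).toEmbedding).card = 1

open Classical in
/-- the number of `j` such that the twist regions `σ_{i_j}^{x_j}` and `σ_{i_{j+1}}^{x_{j+1}}` have exactly one
strand in common and no value of `x_j` or `x_{j+1}` has probability larger than `ε` -/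
noncomputable def turnsG {m k : ℕ} (v : Fin k → List (Fin (m - 1))) (i : Fin k → Fin (m - 1)) 
    (μ : Fin k → Law) (ε : ℝ) : ℕ := 
  (Finset.univ.filter (fun j : Fin k => ∃ h : (j : ℕ) + 1 < k, 
    OneCommon (i j) (v ⟨j + 1, h⟩) (i ⟨j + 1, h⟩) ∧ (μ j).Spread ε ∧ (μ ⟨j + 1, h⟩).Spread ε)).card

end Pool.Agent.Y463.VT
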