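import Pool.Agent.Y463.VT.GMain

/-!
# Few coefficients
-/

set_option autoImplicit false

namespace Pool.Agent.Y463.VT

open Finset LaurentPolynomial Pool.Agent.H891R2.Jones Pool.Agent.W639.RB Pool.Agent.Y463.SK 
  Pool.Agent.Y463.RW Pool.Agent.Y463.MP Pool.Agent.Y463.UT
open Pool.Agent.W705.JR (idx_lt Within)
open Pool.Agent.W705.JV (VLetter virt pushV drawV trV)

variable {m : ℕ}

theorem drawV_size : ∀ (w : List (VLetter m)) (O : Outer m), 
    (drawV O w).crossings.length = O.crossings.length + nr w ∧ 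
    Nat.card (drawV O w).P = Nat.card O.P + m * nr w
  | [], O => ⟨rfl, by simp [drawV, nr]⟩
  | (.inl x :: w), O => by
    obtain ⟨h1, h2⟩ := drawV_size w (O.push x.1 x.2)
    have h0 := idx_lt x
    have h4 : (O.push x.1 x.2).crossings.length = O.crossings.length + 1 ∧ 
        Nat.card (O.push x.1 x.2).P = Nat.card O.P + m := by
      unfold Outer.push
      rw [dif_pos h0]
      refine ⟨by simp, ?_⟩
      simp [Nat.card_eq_fintype_card]
    have h5 : drawV O (.inl x :: w) = drawV (O.push x.1 x.2) w := rfl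
    have h6 : nr (.inl x :: w : List (VLetter m)) = nr w + 1 := rfl
    rw [h5, h1, h2, h4.1, h4.2, h6]
    constructor <;> ring
  | (.inr i :: w), O => drawV_size w (virt O i)

theorem nr_append : ∀ (w w' : List (VLetter m)), nr (w ++ w') = nr w + nr w'
  | [], w' => by simp [nr]
  | (.inl x :: w), w' => by
    show nr (w ++ w') + 1 = nr w + 1 + nr w'
    rw [nr_append w w']; ring
  | (.inr i :: w), w' => nr_append w w'

theorem nr_inr (v : List (Fin (m - 1))) : nr (v.map Sum.inr : List (VLetter m)) = 0 := by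
  induction v with
  | nil => rfl
  | cons i v ih => exact ih

theorem nr_inl (w : List (Letter m)) : nr (w.map Sum.inl : List (VLetter m)) = w.length := by
  induction w with
  | nil => rfl
  | cons x w ih => 
    show nr (w.map Sum.inl : List (VLetter m)) + 1 = w.length + 1
    rw [ih]

theorem powW_length (j : Fin (m - 1)) (n : ℤ) : ((powW [((true, j) : Letter m)] n).length : ℤ) = |n| := by
  have h := tw_length (m := m) (fun _ : Fin 1 => j) (fun _ => n)
  unfold tw at h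
  simpa using h

theorem nr_twG : ∀ {k : ℕ} (v : Fin k → List (Fin (m - 1))) (i : Fin k → Fin (m - 1)) (x : Fin k → ℤ), 
    (nr (twG v i x) : ℤ) = ∑ j, |x j|
  | 0, v, i, x => by
    rw [Fin.sum_univ_zero]
    rfl
  | (k+1), v, i, x => by
    have h1 : twG v i x = 
        (vl (v 0) ++ (powW [(true, i 0)] (x 0)).map Sum.inl) ++ 
          twG (fun j => v j.succ) (fun j => i j.succ) (fun j => x j.succ) := by
      rw [← twG_succ]
      congr 1
      exact (Fin.cons_self_tail x).symm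
    rw [h1, nr_append, nr_append, Fin.sum_univ_succ]
    have h2 : nr (vl (v 0)) = 0 := nr_inr _
    rw [h2, nr_inl]
    push_cast
    rw [nr_twG (fun j => v j.succ) (fun j => i j.succ) (fun j => x j.succ), powW_length]
    ring

theorem within_diaV (O : Outer m) (w : List (VLetter m)) : Within (win O (nr w)) (diaV O w).fPoly := by
  have h1 := within_fPoly (drawV O w).close
  obtain ⟨h2, h3⟩ := drawV_size w O
  have h5 : (drawV O w).close.crossings.length = (drawV O w).crossings.length := rfl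
  rw [h5, h2, h3] at h1
  exact h1

/-- few coefficients -/
theorem finalG2 (hm : 3 ≤ m) (N : ℕ) (hN : 2 ≤ N) (κ : ℝ) : 
    ∃ C' : ℝ, 0 < C' ∧ ∀ (O : Outer m) (k : ℕ) (v : Fin k → List (Fin (m - 1))) (i : Fin k → Fin (m - 1)) 
      (μ : Fin k → Law) (ε : ℝ), 0 < ε → ∀ u : ℕ, u * ((rV m + 1) * (rV m + 2)) ≤ turnsG v i μ ε → 
        (∀ x ∈ Fintype.piFinset (fun j => (μ j).A), (osize O : ℝ) + ∑ j, |(x j : ℝ)| ≤ κ * (u + 1) / ε) → 
        prob μ (fun x => 4 * nonmult N (diaV O (twG v i x)).fPoly ≤ u) ≤ 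
          (Real.exp 1 * CG m) * (C' * ε) ^ ((u : ℝ) / 4) := by
  classical
  set l := N.minFac with hl
  have hlp : l.Prime := Nat.minFac_prime (by omega)
  haveI : Fact l.Prime := ⟨hlp⟩
  have hl2 : 2 ≤ l := hlp.two_le
  have hl1 : (1:ℝ) ≤ (l:ℝ) - 1 := by
    have : (2:ℝ) ≤ l := by exact_mod_cast hl2
    linarith
  set κ' : ℝ := max κ 0 with hκ'
  have hκ0 : 0 ≤ κ' := le_max_right _ _
  set c : ℝ := (8 + 4 * m) * κ' + 1 with hc
  have hc1 : 1 ≤ c := by
    have : 0 ≤ (8 + 4 * (m:ℝ)) * κ' := by positivity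
    rw [hc]; linarith
  have hCU : 1 ≤ CG m := cst_ge _ _
  set C' : ℝ := 64 * Real.exp 4 * ((l - 1) * c) with hC'
  have hlc : 1 ≤ ((l:ℝ) - 1) * c := by nlinarith
  have hexp4 : 1 ≤ Real.exp 4 := Real.one_le_exp (by norm_num)
  have hC'1 : 1 ≤ C' := by
    rw [hC']
    nlinarith
  refine ⟨C', by linarith, ?_⟩
  intro O k v i μ ε hε u hu hsz
  have hexp1 : 1 ≤ Real.exp 1 := Real.one_le_exp (by norm_num)
  rcases le_or_gt ε 1 with hε1 | hε1
  swap
  · have h1 : 1 ≤ (C' * ε) ^ ((u : ℝ) / 4) := Real.one_le_rpow (by nlinarith) (by positivity)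
    refine (prob_le_one μ _).trans ?_
    nlinarith [mul_le_mul hexp1 hCU zero_le_one (Real.exp_pos 1).le]
  set x0 : ℝ := ε / ((l - 1) * c) with hx0
  have hx0pos : 0 < x0 := by positivity
  have hx01 : x0 ≤ 1 := by
    rw [hx0, div_le_one (by positivity)]
    linarith
  set W : ℕ := ⌊(4 + 2 * (m:ℝ)) * (κ' * (u + 1) / ε)⌋₊ with hW
  have hWle : (W : ℝ) ≤ (4 + 2 * (m:ℝ)) * (κ' * (u + 1) / ε) := Nat.floor_le (by positivity)
  have hwin : ∀ x ∈ Fintype.piFinset (fun j => (μ j).A), Within W (diaV O (twG v i x)).fPoly := by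
    intro x hx
    refine (within_diaV O (twG v i x)).mono ?_
    apply Nat.le_floor
    have h1 := hsz x hx
    have h2 : (nr (twG v i x) : ℝ) = ∑ j, |(x j : ℝ)| := by
      have := nr_twG v i x
      have h3 : ((nr (twG v i x) : ℤ) : ℝ) = ((∑ j, |x j| : ℤ) : ℝ) := by rw [this]
      push_cast at h3
      exact h3
    rw [← h2] at h1
    have h4 : κ * ((u:ℝ) + 1) / ε ≤ κ' * (u + 1) / ε := by
      gcongr
      exact le_max_left _ _
    have h5 := h1.trans h4
    have h6 : (win O (nr (twG v i x)) : ℝ) ≤ (4 + 2 * m) * (osize O + nr (twG v i x)) := by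
      unfold win osize
      push_cast
      have h1 : (0:ℝ) ≤ Nat.card O.P := Nat.cast_nonneg _
      have h2 : (0:ℝ) ≤ O.crossings.length := Nat.cast_nonneg _
      have h3 : (0:ℝ) ≤ m := Nat.cast_nonneg _
      nlinarith [mul_nonneg h3 h1, mul_nonneg h3 h2]
    exact h6.trans (mul_le_mul_of_nonneg_left h5 (by positivity))
  have h1 := few_gen l (Fintype.piFinset (fun j => (μ j).A)) (fun x => (diaV O (twG v i x)).fPoly) 
    (fun x => ∏ j, (μ j).p (x j)) (fun x => Finset.prod_nonneg fun j _ => (μ j).nn _) W hwin 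
    (CG m * (8 * ε) ^ ((u : ℝ) / 2)) (fun z => by
      have := mainG' l hm O z k v i μ ε hε u hu
      rw [prob_eq] at this
      exact this) (u / 4) x0 hx0pos hx01
  set Pr0 := ∑ x ∈ Fintype.piFinset (fun j => (μ j).A), 
    (if nonmult l (diaV O (twG v i x)).fPoly ≤ u / 4 then ∏ j, (μ j).p (x j) else 0) with hPr0
  have h2 : prob μ (fun x => 4 * nonmult N (diaV O (twG v i x)).fPoly ≤ u) ≤ Pr0 := by
    rw [prob_eq]
    refine Finset.sum_le_sum fun x _ => ?_
    have hpos : 0 ≤ ∏ j, (μ j).p (x j) := Finset.prod_nonneg fun j _ => (μ j).nn _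
    by_cases h3 : 4 * nonmult N (diaV O (twG v i x)).fPoly ≤ u
    · have h4 := nonmult_mono (Nat.minFac_dvd N) (diaV O (twG v i x)).fPoly
      rw [if_pos h3, if_pos (by rw [← hl] at h4; omega)]
    · rw [if_neg h3]
      split_ifs
      · exact hpos
      · exact le_rfl
  refine h2.trans ?_
  have hPr00 : 0 ≤ Pr0 := (prob_nonneg μ _).trans h2
  -- the window
  have h3 : (1 + (l - 1) * x0) ^ (2 * W + 1) ≤ Real.exp (u + 1) := by
    have e1 : 1 + (l - 1) * x0 ≤ Real.exp (ε / c) := by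
      have : (l - 1) * x0 = ε / c := by
        rw [hx0]
        have : (l:ℝ) - 1 ≠ 0 := by linarith
        field_simp
      rw [this, add_comm]
      exact Real.add_one_le_exp _
    have e2 : ((2 * W + 1 : ℕ) : ℝ) * (ε / c) ≤ u + 1 := by
      have e3 : ((2 * W + 1 : ℕ) : ℝ) ≤ c * ((u + 1) / ε) := by
        push_cast
        have e4 : 1 ≤ ((u:ℝ) + 1) / ε := by
          rw [le_div_iff₀ hε]
          have : (0:ℝ) ≤ u := Nat.cast_nonneg _
          linarith
        have e5 : (4 + 2 * (m:ℝ)) * (κ' * (u + 1) / ε) = (4 + 2 * m) * κ' * ((u + 1) / ε) := by ring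
        rw [e5] at hWle
        rw [hc]
        nlinarith
      calc ((2 * W + 1 : ℕ) : ℝ) * (ε / c) ≤ (c * ((u + 1) / ε)) * (ε / c) := 
            mul_le_mul_of_nonneg_right e3 (by positivity)
        _ = u + 1 := by field_simp
    calc (1 + (l - 1) * x0) ^ (2 * W + 1) ≤ (Real.exp (ε / c)) ^ (2 * W + 1) := by
          apply pow_le_pow_left₀ _ e1
          have : 0 ≤ ((l:ℝ) - 1) * x0 := by positivity
          linarith
      _ = Real.exp (((2 * W + 1 : ℕ) : ℝ) * (ε / c)) := by rw [← Real.exp_nat_mul]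
      _ ≤ _ := Real.exp_le_exp.2 e2
  have h4 : x0 ^ ((u : ℝ) / 4) ≤ x0 ^ (u / 4) := by
    rw [← Real.rpow_natCast]
    apply Real.rpow_le_rpow_of_exponent_ge hx0pos hx01
    have := @Nat.cast_div_le ℝ _ _ _ u 4
    exact_mod_cast this
  have hxu : 0 < x0 ^ ((u : ℝ) / 4) := Real.rpow_pos_of_pos hx0pos _
  have h8 : 0 ≤ CG m * (8 * ε) ^ ((u : ℝ) / 2) := by positivity
  have h5 : Pr0 * x0 ^ ((u : ℝ) / 4) ≤ Real.exp (u + 1) * (CG m * (8 * ε) ^ ((u : ℝ) / 2)) := 
    calc Pr0 * x0 ^ ((u : ℝ) / 4) ≤ Pr0 * x0 ^ (u / 4) := mul_le_mul_of_nonneg_left h4 hPr00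
      _ ≤ _ := h1
      _ ≤ _ := mul_le_mul_of_nonneg_right h3 h8
  have h6 : Real.exp (u + 1) * (CG m * (8 * ε) ^ ((u : ℝ) / 2)) = 
      ((Real.exp 1 * CG m) * (C' * ε) ^ ((u : ℝ) / 4)) * x0 ^ ((u : ℝ) / 4) := by
    have e1 : C' * ε * x0 = Real.exp 4 * (8 * ε) ^ (2:ℝ) := by
      have : (8 * ε) ^ (2:ℝ) = (8 * ε) ^ 2 := by norm_cast
      rw [this, hC', hx0]
      have : (l:ℝ) - 1 ≠ 0 := by linarith
      field_simp
      ring
    have e2 : (C' * ε) ^ ((u : ℝ) / 4) * x0 ^ ((u : ℝ) / 4) = 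
        Real.exp u * (8 * ε) ^ ((u : ℝ) / 2) := by
      rw [← Real.mul_rpow (by positivity) hx0pos.le, e1, Real.mul_rpow (Real.exp_pos 4).le (by positivity), 
        ← Real.rpow_mul (by positivity), ← Real.exp_mul]
      congr 2
      · ring
      · ring
    rw [mul_assoc (Real.exp 1 * CG m), e2, Real.exp_add]
    ring
  rw [h6] at h5
  exact le_of_mul_le_mul_right h5 hxu

/-- small diagrams -/
theorem finalG3 (N : ℕ) {k : ℕ} (O : Outer m) (v : Fin k → List (Fin (m - 1))) (i : Fin k → Fin (m - 1)) 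
    (μ : Fin k → Law) (u : ℕ) : 
    prob μ (fun x => ∃ (P : Type) (_ : Finite P) (D : Diagram P), 16 * dsize D + 4 ≤ u ∧ 
      (N : ℤ[T;T⁻¹]) ∣ (diaV O (twG v i x)).fPoly - D.fPoly) ≤ 
    prob μ (fun x => 4 * nonmult N (diaV O (twG v i x)).fPoly ≤ u) := by
  apply prob_mono
  rintro x _ ⟨P, hP, D, h1, h2⟩
  have h3 := nonmult_congr N _ _ h2
  have h4 := nonmult_le_dsize N D
  show 4 * nonmult N (diaV O (twG v i x)).fPoly ≤ u
  rw [h3]
  omega

end Pool.Agent.Y463.VT
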