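import Pool.Agent.Y463.VT.Sym
import Pool.Agent.Y463.UT.Fin

/-!
# Twist regions separated by virtual crossings
-/

set_option autoImplicit false

namespace Pool.Agent.Y463.VT

open Finset LaurentPolynomial Pool.Agent.H891R2.Jones Pool.Agent.W639.RB Pool.Agent.Y463.SK 
  Pool.Agent.Y463.RW Pool.Agent.Y463.MP Pool.Agent.Y463.UT
open Pool.Agent.W705.JR (idx_lt inv' sgn sw cst2 push_up push_length L2 sh sh_mul sh_one sh_norm sh_apply)
open Pool.Agent.W705.JV (VLetter virt pushV drawV trV)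

variable {m : ℕ}

section fib

variable (L : Type) [Field L] [Algebra ℤ[T;T⁻¹] L]

theorem vX_fib (x : VLetter m) : FibLin (vX L x) := by
  rcases x with x | i
  · exact sX_fib (DV L m) x
  · exact pX_fib L i

theorem wVX_fib (w : List (VLetter m)) : FibLin (wVX L w) := by
  induction w with
  | nil => exact FibLin.one
  | cons x w ih => 
    rw [wVX_cons]
    exact (vX_fib L x).mul ih

/-- the steps -/
noncomputable def sG (c : List (Fin (m - 1)) × Fin (m - 1)) : Equiv.Perm (XX L (TVL L m × L) (Fin m → Bool)) := 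
  wVX L (vl c.1) * sX (DV L m) (true, c.2) * (wVX L (vl c.1))⁻¹

theorem sG_fib (c : List (Fin (m - 1)) × Fin (m - 1)) : FibLin (sG L c) := 
  ((wVX_fib L _).mul (sX_fib (DV L m) _)).mul (wVX_fib L _).inv

theorem sG_zpow (c : List (Fin (m - 1)) × Fin (m - 1)) (n : ℤ) : 
    (sG L c) ^ n = wVX L (vl c.1 ++ (powW [(true, c.2)] n).map Sum.inl ++ ivW (vl c.1)) := by
  unfold sG
  rw [conj_zpow, wVX_append, wVX_append, wVX_inl, wX_single, wVX_ivW]

theorem pair_other (i : Fin (m - 1)) (b : Fin m) (hb : b ∈ pair i) : ∃ a, a ≠ b ∧ pair i = {a, b} := by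
  unfold pair at hb ⊢
  rw [Finset.mem_insert, Finset.mem_singleton] at hb
  rcases hb with rfl | rfl
  · refine ⟨⟨i + 1, by omega⟩, ?_, ?_⟩
    · intro h
      have := congrArg Fin.val h
      simp at this
    · exact Finset.pair_comm _ _
  · refine ⟨⟨i, by omega⟩, ?_, rfl⟩
    intro h
    have := congrArg Fin.val h
    simp at this

theorem site_normG [IsAlgClosed L] (hm : 3 ≤ m) {Γ : Type} [LinearOrderedCommGroupWithZero Γ] 
    (v : Valuation L Γ) (hv : v (DV L m).t < 1) (ε : ℝ) (hε : 0 ≤ ε) (c : List (Fin (m - 1))) 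
    (i : Fin (m - 1)) (w : List (Fin (m - 1))) (i' : Fin (m - 1)) (hcom : OneCommon i w i') (μ μ' : Law) 
    (h1 : μ.Spread ε) (h2 : μ'.Spread ε) (f : L2 (XX L (TVL L m × L) (Fin m → Bool))) 
    (hf : ∀ x, x ∉ NXV L → f x = 0) : 
    ‖av (sG L (c, i)) μ (av (sG L (c ++ w, i')) μ' f)‖ ≤ √(8 * ε) * ‖f‖ := by
  obtain ⟨b, hb⟩ := Finset.card_eq_one.1 hcom
  have hb0 : b ∈ pair i ∩ (pair i').map (pm w).toEmbedding := by rw [hb]; exact Finset.mem_singleton_self b
  rw [Finset.mem_inter] at hb0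
  obtain ⟨hb1, hb2⟩ := hb0
  obtain ⟨a, hab, hpi⟩ := pair_other i b hb1
  rw [Finset.mem_map] at hb2
  obtain ⟨b', hb', hbb'⟩ := hb2
  have hbb : pm w b' = b := hbb'
  obtain ⟨c', hcb', hpi'⟩ := pair_other i' b' hb'
  set d := pm w c' with hd
  have hdb : d ≠ b := by
    intro h
    rw [← hbb, hd] at h
    exact hcb' ((pm w).injective h)
  have had : a ≠ d := by
    intro h
    have h3 : a ∈ pair i ∩ (pair i').map (pm w).toEmbedding := by
      rw [Finset.mem_inter]
      constructor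
      · rw [hpi]; exact Finset.mem_insert_self _ _
      · rw [h, Finset.mem_map]
        exact ⟨c', by rw [hpi']; exact Finset.mem_insert_self _ _, rfl⟩
    rw [hb, Finset.mem_singleton] at h3
    exact hab h3
  obtain ⟨π, hπ0, hπ1, hπ2⟩ := exists_perm3 (⟨0, by omega⟩ : Fin m) ⟨1, by omega⟩ ⟨2, by omega⟩ a b d 
    (by simp) (by simp) (by simp) hab had hdb.symm
  obtain ⟨z, hz⟩ := exists_word (by omega) π
  obtain ⟨z', hz'⟩ := exists_word (by omega) ((pm w)⁻¹ * π)
  have p0 : (pair (⟨0, by omega⟩ : Fin (m - 1))).map (pm z).toEmbedding = pair i := by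
    rw [hpi, hz]
    unfold pair
    rw [Finset.map_insert, Finset.map_singleton]
    show ({π ⟨0, by omega⟩, π ⟨1, by omega⟩} : Finset (Fin m)) = {a, b}
    rw [hπ0, hπ1]
  have p1 : (pair (⟨1, by omega⟩ : Fin (m - 1))).map (pm z').toEmbedding = pair i' := by
    rw [hpi', hz']
    unfold pair
    rw [Finset.map_insert, Finset.map_singleton]
    show ({(pm w)⁻¹ (π ⟨1, by omega⟩), (pm w)⁻¹ (π ⟨2, by omega⟩)} : Finset (Fin m)) = {c', b'}
    have e1 : (pm w)⁻¹ b = b' := by rw [Equiv.Perm.inv_eq_iff_eq]; exact hbb.symm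
    have e2 : (pm w)⁻¹ d = c' := by rw [Equiv.Perm.inv_eq_iff_eq]
    rw [hπ1, hπ2, e1, e2, Finset.pair_comm]
  have q0 := conj_sX L z _ _ p0
  have q1 := conj_sX L z' _ _ p1
  have q2 : wVX L (vl w) * wVX L (vl z') = wVX L (vl z) := by
    rw [← wVX_append, ← vl_append]
    apply wVX_congr
    rw [pm_append, hz, hz', mul_inv_cancel_left]
  set g := wVX L (vl c) * wVX L (vl z) with hg
  have r0 : sG L (c, i) = g * sX (DV L m) (true, ⟨0, by omega⟩) * g⁻¹ := by
    show wVX L (vl c) * sX (DV L m) (true, i) * (wVX L (vl c))⁻¹ = _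
    have : sX (DV L m) (true, i) = 
        wVX L (vl z) * sX (DV L m) (true, ⟨0, by omega⟩) * (wVX L (vl z))⁻¹ := by
      rw [q0, mul_inv_cancel_right]
    rw [this, hg]
    group
  have r1 : sG L (c ++ w, i') = g * sX (DV L m) (true, ⟨1, by omega⟩) * g⁻¹ := by
    show wVX L (vl (c ++ w)) * sX (DV L m) (true, i') * (wVX L (vl (c ++ w)))⁻¹ = _
    have : sX (DV L m) (true, i') = 
        wVX L (vl z') * sX (DV L m) (true, ⟨1, by omega⟩) * (wVX L (vl z'))⁻¹ := by
      rw [q1, mul_inv_cancel_right]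
    rw [this, hg, vl_append, wVX_append, ← q2]
    group
  rw [r0, r1, av_conj, av_conj]
  have e3 : ∀ h : L2 (XX L (TVL L m × L) (Fin m → Bool)), sh g⁻¹ (sh g h) = h := by
    intro h
    rw [← sh_mul, inv_mul_cancel, sh_one]
  rw [e3, sh_norm]
  have e4 := site_norm (DV L m) v hv ε hε (⟨0, by omega⟩, μ) (⟨1, by omega⟩, μ') 
    ⟨Or.inl rfl, h1, h2⟩ (sh g⁻¹ f) (fun x hx => by
      rw [sh_apply, inv_inv]
      apply hf
      intro h
      apply hx
      apply NXV_sub
      have h3 : g = wVX L (vl c ++ vl z) := by rw [wVX_append]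
      rw [h3] at h
      exact NXV_word L _ x h)
  rw [sh_norm] at e4
  exact e4

/-- the linear maps of the words of virtual crossings -/
noncomputable def lwe : List (Fin (m - 1)) → ((TVL L m × L) ≃ₗ[L] (TVL L m × L))
  | [] => LinearEquiv.refl L _
  | (i :: v) => (lwe v).trans (hX L i)

theorem lwe_apply (v : List (Fin (m - 1))) (z : TVL L m × L) : 
    lwe L v z = (inV L m (wV m (vl v)) * z.1, z.2) := by
  induction v with
  | nil =>
    have h2 : wV m (vl ([] : List (Fin (m - 1)))) = 1 := rfl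
    rw [h2, map_one, one_mul]
    rfl
  | cons i v ih =>
    show hX L i (lwe L v z) = _
    rw [ih, hX_apply]
    refine Prod.ext ?_ rfl
    show pM L i (inV L m (wV m (vl v)) * z.1) = inV L m (wV m (.inr i :: vl v)) * z.1
    rw [pM_apply, wV_cons, map_mul, mul_assoc]
    rfl

theorem wVX_lwe (v : List (Fin (m - 1))) (y : XX L (TVL L m × L) (Fin m → Bool)) : 
    (wVX L (vl v) y).2 = y.2.map (lwe L v : (TVL L m × L) →ₗ[L] (TVL L m × L)) := by
  rw [wVX_virt]
  show y.2.map (lw L (wV m (vl v))) = _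
  congr 1
  apply LinearMap.ext
  intro z
  rw [lw_apply]
  exact (lwe_apply L v z).symm

end fib

section prob

variable (l : ℕ) [Fact l.Prime]

/-- the initial vector after a word of virtual crossings -/
noncomputable def xiC (c : List (Fin (m - 1))) : VV l m := (inV (LL l) m (wV m (vl c)), 1)

theorem xiC_eq (c : List (Fin (m - 1))) : xiC l c = lwe (LL l) c (xiV l m) := by
  rw [lwe_apply]
  have h5 : (xiV l m).1 = 1 := rfl
  rw [h5, mul_one]
  rfl

theorem xiC_mem (c : List (Fin (m - 1))) (y : XX (LL l) (VV l m) (Fin m → Bool)) : 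
    xiC l c ∈ (wVX (LL l) (vl c) y).2 ↔ xiV l m ∈ y.2 := by
  rw [wVX_lwe, Submodule.mem_map, xiC_eq]
  constructor
  · rintro ⟨z, hz, h⟩
    have : z = xiV l m := (lwe (LL l) c).injective h
    rwa [← this]
  · intro h
    exact ⟨_, h, rfl⟩

theorem WV_xiC (hm : 0 < m) (c : List (Fin (m - 1))) (y : XX (LL l) (VV l m) (Fin m → Bool)) 
    (hy : y ∈ WV l hm) (hN : y ∉ NXV (LL l)) : xiC l c ∉ y.2 := by
  intro hxi
  apply hN
  intro w i hi hS
  obtain ⟨O, z, _, h⟩ := WV_word l hm w y hy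
  obtain ⟨c', hc⟩ := mem_wordV l w y (xiC l c) hxi
  have h2 := h (hS _ hc)
  rw [LinearMap.mem_ker, fV_apply] at h2
  have h4 : (Dv l m).e i * (inV (LL l) m (wV m w) * (xiC l c).1) = 
      inV (LL l) m (EV m i * wV m (w ++ vl c)) := by
    have h5 : (xiC l c).1 = inV (LL l) m (wV m (vl c)) := rfl
    have h6 : wV m (w ++ vl c) = wV m w * wV m (vl c) := by
      unfold wV
      rw [List.map_append, List.prod_append]
    rw [h6, map_mul, map_mul, h5]
    rfl
  simp only [h4, mul_zero, sub_zero] at h2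
  rw [phV_inV, algebraMap_LL, phi_zero_iff] at h2
  exact not_dvdV l hm (w ++ vl c) O i hi h2

open Classical in
/-- the probability of the value `z` -/
noncomputable def probG {k : ℕ} (v : Fin k → List (Fin (m - 1))) (i : Fin k → Fin (m - 1)) (μ : Fin k → Law) 
    (O : Outer m) (z : LL l) : ℝ :=
  ∑ x ∈ Fintype.piFinset (fun j => (μ j).A), 
    if phi l (diaV O (twG v i x)).fPoly = z then ∏ j, (μ j).p (x j) else 0

theorem twG_succ {k : ℕ} (v : Fin (k+1) → List (Fin (m - 1))) (i : Fin (k+1) → Fin (m - 1)) (n : ℤ) 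
    (x : Fin k → ℤ) : twG v i (Fin.cons n x : Fin (k+1) → ℤ) = 
      (vl (v 0) ++ (powW [(true, i 0)] n).map Sum.inl) ++ twG (fun j => v j.succ) (fun j => i j.succ) x := by
  unfold twG
  rw [List.ofFn_succ, List.flatten_cons]
  rfl

/-- the virtual crossings before a step -/
def cw {k : ℕ} (c : List (Fin (m - 1))) (v : Fin k → List (Fin (m - 1))) (j : ℕ) : List (Fin (m - 1)) := 
  c ++ ((List.ofFn v).take (j + 1)).flatten

theorem cw_zero {k : ℕ} (c : List (Fin (m - 1))) (v : Fin (k + 1) → List (Fin (m - 1))) : 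
    cw c v 0 = c ++ v 0 := by
  unfold cw
  rw [List.ofFn_succ]
  simp

theorem cw_succ {k : ℕ} (c : List (Fin (m - 1))) (v : Fin (k + 1) → List (Fin (m - 1))) (j : ℕ) : 
    cw c v (j + 1) = cw (c ++ v 0) (fun j => v j.succ) j := by
  unfold cw
  rw [List.ofFn_succ, List.take_succ_cons, List.flatten_cons, List.append_assoc]

theorem cw_next : ∀ {k : ℕ} (c : List (Fin (m - 1))) (v : Fin k → List (Fin (m - 1))) (j : ℕ) 
    (h : j + 1 < k), cw c v (j + 1) = cw c v j ++ v ⟨j + 1, h⟩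
  | 0, c, v, j, h => absurd h (by omega)
  | (k + 1), c, v, 0, h => by
    obtain ⟨k', rfl⟩ : ∃ k', k = k' + 1 := ⟨k - 1, by omega⟩
    rw [cw_succ, cw_zero, cw_zero]
    rfl
  | (k + 1), c, v, (j + 1), h => by
    rw [cw_succ, cw_succ, cw_next (c ++ v 0) (fun j => v j.succ) j (by omega)]
    rfl

theorem hit_stG (hm : 0 < m) (z : LL l) : ∀ (k : ℕ) (c : List (Fin (m - 1))) 
    (v : Fin k → List (Fin (m - 1))) (i : Fin k → Fin (m - 1)) (μ : Fin k → Law) (O : Outer m), 
    UT.hit (sG (m := m) (LL l)) (xiC l (c ++ (List.ofFn v).flatten)) 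
      (List.ofFn (fun j : Fin k => ((cw c v j, i j), μ j))) 
      (wVX (LL l) (vl c) (stV l hm O z)) = probG l v i μ O z
  | 0, c, v, i, μ, O => by
    classical
    have hL : List.ofFn (fun j : Fin 0 => ((cw c v j, i j), μ j)) = [] := List.ofFn_zero
    unfold probG
    rw [hL]
    unfold UT.hit
    have h1 : Fintype.piFinset (fun j : Fin 0 => (μ j).A) = {default} := by
      ext x
      rw [Fintype.mem_piFinset, Finset.mem_singleton]
      exact ⟨fun _ => Subsingleton.elim _ _, fun _ j => j.elim0⟩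
    rw [h1, Finset.sum_singleton]
    have h0 : (diaV O (twG v i (default : Fin 0 → ℤ))).fPoly = O.close.fPoly := rfl
    rw [h0]
    have h3 : c ++ (List.ofFn v).flatten = c := by
      rw [List.ofFn_zero, List.flatten_nil, List.append_nil]
    have h2 : xiC l (c ++ (List.ofFn v).flatten) ∈ (wVX (LL l) (vl c) (stV l hm O z)).2 ↔ 
        phi l O.close.fPoly = z := by
      rw [h3, xiC_mem]
      exact xiV_mem l hm O z
    simp only [h2, Finset.univ_eq_empty, Finset.prod_empty]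
  | (k+1), c, v, i, μ, O => by
    classical
    have hL : List.ofFn (fun j : Fin (k+1) => ((cw c v j, i j), μ j)) = 
        ((cw c v 0, i 0), μ 0) :: 
          List.ofFn (fun j : Fin k => ((cw c v (j.succ : Fin (k+1)), i j.succ), μ j.succ)) := 
      List.ofFn_succ
    rw [hL]
    unfold UT.hit probG
    rw [sum_pi_succ]
    refine Finset.sum_congr rfl fun n _ => ?_
    have h1 : ((sG (LL l) (cw c v 0, i 0)) ^ n)⁻¹ (wVX (LL l) (vl c) (stV l hm O z)) = 
        wVX (LL l) (vl (c ++ v 0)) 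
          (stV l hm (drawV O (vl (v 0) ++ (powW [(true, i 0)] n).map Sum.inl)) z) := by
      rw [← stV_word, sG_zpow, cw_zero]
      simp only [vl_append, wVX_append, wVX_ivW, _root_.mul_inv_rev, inv_inv, Equiv.Perm.mul_apply]
      have e1 : ∀ (g : Equiv.Perm (XX (LL l) (VV l m) (Fin m → Bool))) y, g⁻¹ (g y) = y := 
        fun g y => Equiv.symm_apply_apply g y
      rw [e1]
    have h4 : xiC l (c ++ (List.ofFn v).flatten) = 
        xiC l ((c ++ v 0) ++ (List.ofFn (fun j => v j.succ)).flatten) := by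
      rw [List.ofFn_succ, List.flatten_cons, List.append_assoc]
    have h5 : (List.ofFn fun j : Fin k => ((cw c v (j.succ : Fin (k+1)), i j.succ), μ j.succ)) = 
        List.ofFn fun j : Fin k => ((cw (c ++ v 0) (fun j => v j.succ) j, i j.succ), μ j.succ) := by
      congr 1
      funext j
      rw [Fin.val_succ, cw_succ]
    show (μ 0).p n * UT.hit (sG (LL l)) (xiC l (c ++ (List.ofFn v).flatten)) 
      (List.ofFn fun j : Fin k => ((cw c v (j.succ : Fin (k+1)), i j.succ), μ j.succ)) 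
      (((sG (LL l) (cw c v 0, i 0)) ^ n)⁻¹ (wVX (LL l) (vl c) (stV l hm O z))) = _
    rw [h1, h4, h5, hit_stG hm z k, probG, Finset.mul_sum]
    refine Finset.sum_congr rfl fun x _ => ?_
    have h3 : (diaV (drawV O (vl (v 0) ++ (powW [(true, i 0)] n).map Sum.inl)) 
        (twG (fun j => v j.succ) (fun j => i j.succ) x)).fPoly = 
        (diaV O (twG v i (Fin.cons n x : Fin (k+1) → ℤ))).fPoly := by
      unfold diaV
      rw [twG_succ, drawV_append O (vl (v 0) ++ (powW [(true, i 0)] n).map Sum.inl)]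
    rw [h3, Fin.prod_univ_succ]
    simp only [Fin.cons_zero, Fin.cons_succ]
    split_ifs <;> ring

/-- two neighbouring steps -/
def SiteG (m : ℕ) (ε : ℝ) (a a' : (List (Fin (m - 1)) × Fin (m - 1)) × Law) : Prop := 
  ∃ w, a'.1.1 = a.1.1 ++ w ∧ OneCommon a.1.2 w a'.1.2 ∧ a.2.Spread ε ∧ a'.2.Spread ε

/-- the constant -/
noncomputable def CG (m : ℕ) : ℝ := UT.cst (2 ^ m) (rV m + 1)

theorem mainG (hm : 3 ≤ m) (O : Outer m) (z : LL l) (k : ℕ) (v : Fin k → List (Fin (m - 1))) 
    (i : Fin k → Fin (m - 1)) (μ : Fin k → Law) (ε : ℝ) (hε : 0 < ε) (u : ℕ) 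
    (hu : u * ((rV m + 1) * (rV m + 2)) ≤ turnsG v i μ ε) : 
    probG l v i μ O z ≤ CG m * √(8 * ε) ^ u := by
  classical
  have hm0 : 0 < m := by omega
  have hC1 : 1 ≤ CG m := cst_ge _ _
  have hstart : wVX (LL l) (vl ([] : List (Fin (m - 1)))) (stV l hm0 O z) = stV l hm0 O z := rfl
  rcases le_or_gt (√(8 * ε)) 1 with hρ1 | hρ1
  · obtain ⟨V, hV⟩ := exists_valuation l
    obtain ⟨hfin, hrank⟩ := finrank_TVL (LL l) m
    have ht : V.valuation (Dv l m).t < 1 := by
      have h1 : (Dv l m).t = (jj l Polynomial.X) ^ 2 := by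
        show (phi l (T 1)) ^ 2 = _
        rw [phi_T, zpow_one]
      rw [h1, map_pow]
      exact pow_lt_one₀ zero_le hV two_ne_zero
    have hdim : Module.finrank (LL l) (VV l m) ≤ rV m + 1 := by
      rw [Module.finrank_prod, Module.finrank_self]
      omega
    rw [← hit_stG l hm0 z k [] v i μ O, hstart]
    have hρ0 : 0 < √(8 * ε) := Real.sqrt_pos.2 (by positivity)
    have hcard : Fintype.card (Fin m → Bool) = 2 ^ m := by simp
    have hdec := decay (ξ := xiC l ([] ++ (List.ofFn v).flatten)) (Site := SiteG m ε) 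
      (fun c => sG_fib (LL l) c) 
      (NXV (LL l)) (fun c n x hx => by
        rw [sG_zpow] at hx
        exact NXV_word (LL l) _ x hx) (fun U => NXV_bot (LL l) (by omega) U) 
      (WV l hm0) (fun x hx c n => by
        rw [sG_zpow]
        exact WV_word l hm0 _ x hx) 
      (fun U W hUW W' hW' => by
        obtain ⟨O', z', h1, h2⟩ := hUW
        exact ⟨O', z', h1, hW'.trans h2⟩) 
      (fun x hx hN => WV_xiC l hm0 _ x hx hN) (√(8 * ε)) hρ0 hρ1 
      (fun b b' hs f hf => by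
        obtain ⟨w, h1, h2, h3, h4⟩ := hs
        obtain ⟨⟨c, i0⟩, μ0⟩ := b
        obtain ⟨⟨c', i1⟩, μ1⟩ := b'
        have h1' : c' = c ++ w := h1
        subst h1'
        exact site_normG (LL l) hm V.valuation ht ε hε.le c i0 w i1 h2 μ0 μ1 h3 h4 f hf) u 
      (rV m + 1) (stV l hm0 O z) ⟨O, z, rfl, le_rfl⟩ ((Submodule.finrank_le _).trans hdim) 
      (List.ofFn (fun j : Fin k => ((cw [] v j, i j), μ j))) ?_
    · rw [hcard] at hdec
      exact hdec
    · apply UT.con_of_cnt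
      rw [← cnt_ofFn]
      have h2 : 2 * ((rV m + 1) * (rV m + 1 + 1) / 2 * u) ≤ 
          u * ((rV m + 1) * (rV m + 2)) := by
        have h3 : 2 * ((rV m + 1) * (rV m + 1 + 1) / 2) ≤ 
            (rV m + 1) * (rV m + 1 + 1) := Nat.mul_div_le _ _
        calc 2 * ((rV m + 1) * (rV m + 1 + 1) / 2 * u) 
            = (2 * ((rV m + 1) * (rV m + 1 + 1) / 2)) * u := by ring
          _ ≤ ((rV m + 1) * (rV m + 1 + 1)) * u := Nat.mul_le_mul_right _ h3
          _ = _ := by ring
      refine le_trans h2 (le_trans hu (le_trans ?_ (Nat.le_succ _)))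
      unfold turnsG
      apply Finset.card_le_card
      intro j hj
      rw [Finset.mem_filter] at hj ⊢
      obtain ⟨_, h, h2, h3, h4⟩ := hj
      exact ⟨Finset.mem_univ _, h, v ⟨j + 1, h⟩, cw_next [] v j h, h2, h3, h4⟩
  · have h1 : probG l v i μ O z ≤ 1 := by
      rw [← hit_stG l hm0 z k [] v i μ O]
      exact hit_le_one _ _
    have h2 : 1 ≤ √(8 * ε) ^ u := one_le_pow₀ hρ1.le
    calc probG l v i μ O z ≤ 1 := h1
      _ = 1 * 1 := (one_mul 1).symm
      _ ≤ _ := mul_le_mul hC1 h2 zero_le_one (by linarith)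

theorem mainG' (hm : 3 ≤ m) (O : Outer m) (z : LL l) (k : ℕ) 
    (v : Fin k → List (Fin (m - 1))) (i : Fin k → Fin (m - 1)) (μ : Fin k → Law) (ε : ℝ) (hε : 0 < ε) (u : ℕ) 
    (hu : u * ((rV m + 1) * (rV m + 2)) ≤ turnsG v i μ ε) : 
    prob μ (fun x => phi l (diaV O (twG v i x)).fPoly = z) ≤ CG m * (8 * ε) ^ ((u : ℝ) / 2) := by
  classical
  rw [← sqrt_pow _ (by positivity)]
  refine le_trans (le_of_eq ?_) (mainG l hm O z k v i μ ε hε u hu)
  rw [prob_eq]
  unfold probG
  rfl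

end prob

theorem finalG (hm : 3 ≤ m) (N : ℕ) (hN : 2 ≤ N) (O : Outer m) (g : ℤ[T;T⁻¹]) (k : ℕ) 
    (v : Fin k → List (Fin (m - 1))) (i : Fin k → Fin (m - 1)) (μ : Fin k → Law) (ε : ℝ) (hε : 0 < ε) (u : ℕ) 
    (hu : u * ((rV m + 1) * (rV m + 2)) ≤ turnsG v i μ ε) : 
    prob μ (fun x => (N : ℤ[T;T⁻¹]) ∣ (diaV O (twG v i x)).fPoly - g) ≤ CG m * (8 * ε) ^ ((u : ℝ) / 2) := by
  classical
  have hlp : N.minFac.Prime := Nat.minFac_prime (by omega)
  haveI : Fact N.minFac.Prime := ⟨hlp⟩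
  exact le_trans (prob_mono μ _ (fun x => phi N.minFac (diaV O (twG v i x)).fPoly = phi N.minFac g) 
    (fun x _ hx => dvd_phi N.minFac (Nat.minFac_dvd N) _ _ hx)) 
    (mainG' N.minFac hm O (phi N.minFac g) k v i μ ε hε u hu)

end Pool.Agent.Y463.VT
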