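import Pool.Agent.Y463.UT.Act

/-!
# Nondegenerate distributions
-/

set_option autoImplicit false

namespace Pool.Agent.Y463.VT

open Pool.Agent.Y463.UT Pool.Agent.Y463.MP
open Pool.Agent.W705.JR (L2 sh sh_mul sh_one sh_norm sh_apply sh_sub sh_add res res_apply res_norm_le res_sub
  norm_sq summable_sq norm_le_two)

variable {X : Type*}

/-- the variance of the translates -/
theorem variance (σ : Equiv.Perm X) (μ : Law) (f : L2 X) : 
    ∑ n ∈ μ.A, μ.p n * ‖sh (σ ^ n) f - av σ μ f‖ ^ 2 = ‖f‖ ^ 2 - ‖av σ μ f‖ ^ 2 := by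
  have h1 : ∀ n : ℤ, ‖sh (σ ^ n) f - av σ μ f‖ ^ 2 = 
      ‖f‖ ^ 2 - 2 * inner ℝ (sh (σ ^ n) f) (av σ μ f) + ‖av σ μ f‖ ^ 2 := by
    intro n
    rw [norm_sub_sq_real, sh_norm]
  have h2 : ∑ n ∈ μ.A, μ.p n * inner ℝ (sh (σ ^ n) f) (av σ μ f) = ‖av σ μ f‖ ^ 2 := by
    have h3 : inner ℝ (∑ n ∈ μ.A, μ.p n • sh (σ ^ n) f) (av σ μ f) = 
        ∑ n ∈ μ.A, μ.p n * inner ℝ (sh (σ ^ n) f) (av σ μ f) := by
      rw [sum_inner]
      exact Finset.sum_congr rfl fun n _ => real_inner_smul_left _ _ _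
    rw [← h3]
    exact real_inner_self_eq_norm_sq (av σ μ f)
  calc ∑ n ∈ μ.A, μ.p n * ‖sh (σ ^ n) f - av σ μ f‖ ^ 2 
      = ∑ n ∈ μ.A, (μ.p n * (‖f‖ ^ 2 + ‖av σ μ f‖ ^ 2) - 
          2 * (μ.p n * inner ℝ (sh (σ ^ n) f) (av σ μ f))) := by
        refine Finset.sum_congr rfl fun n _ => ?_
        rw [h1]; ring
    _ = _ := by
        rw [Finset.sum_sub_distrib, ← Finset.sum_mul, ← Finset.mul_sum, h2, μ.sum]
        ring

theorem exists_two (σ : Equiv.Perm X) (μ : Law) (ε : ℝ) (hε0 : 0 ≤ ε) (hε : ε < 1) (hμ : μ.Spread ε) 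
    (f : L2 X) (s : ℝ) (hs : 0 ≤ s) (h : ‖f‖ ^ 2 - ‖av σ μ f‖ ^ 2 ≤ (1 - ε) * s ^ 2) : 
    ∃ n0 n1 : ℤ, n0 ≠ n1 ∧ ‖sh (σ ^ n0) f - av σ μ f‖ ≤ s ∧ ‖sh (σ ^ n1) f - av σ μ f‖ ≤ s := by
  classical
  by_contra hcon
  push Not at hcon
  set B := μ.A.filter (fun n => ‖sh (σ ^ n) f - av σ μ f‖ ≤ s) with hB
  set Bc := μ.A.filter (fun n => ¬ ‖sh (σ ^ n) f - av σ μ f‖ ≤ s) with hBc
  have h1 : ∑ n ∈ B, μ.p n + ∑ n ∈ Bc, μ.p n = 1 := by
    rw [hB, hBc, Finset.sum_filter_add_sum_filter_not, μ.sum]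
  have h2 : ∑ n ∈ B, μ.p n ≤ ε := by
    rcases B.eq_empty_or_nonempty with he | ⟨n0, hn0⟩
    · rw [he, Finset.sum_empty]; exact hε0
    · have h3 : B = {n0} := by
        apply Finset.eq_singleton_iff_unique_mem.2
        refine ⟨hn0, fun n1 hn1 => ?_⟩
        by_contra hne
        rw [hB, Finset.mem_filter] at hn0 hn1
        exact absurd hn1.2 (not_le.2 (hcon n0 n1 (Ne.symm hne) hn0.2))
      rw [h3, Finset.sum_singleton]
      rw [hB, Finset.mem_filter] at hn0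
      exact hμ n0 hn0.1
  have h3 : 1 - ε ≤ ∑ n ∈ Bc, μ.p n := by linarith
  have h4 : 0 < ∑ n ∈ Bc, μ.p n := by linarith
  have h5 : 0 < ∑ n ∈ Bc, μ.p n * (‖sh (σ ^ n) f - av σ μ f‖ ^ 2 - s ^ 2) := by
    obtain ⟨n, hn, hpn⟩ := Finset.exists_lt_of_sum_lt (s := Bc) (f := fun _ => (0:ℝ)) (g := μ.p) (by simpa using h4)
    have hlt : ∀ k ∈ Bc, 0 < ‖sh (σ ^ k) f - av σ μ f‖ ^ 2 - s ^ 2 := by
      intro k hk
      rw [hBc, Finset.mem_filter, not_le] at hk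
      have := hk.2
      nlinarith
    refine Finset.sum_pos' (fun k hk => mul_nonneg (μ.nn k) (hlt k hk).le) ⟨n, hn, mul_pos hpn (hlt n hn)⟩
  have h6 : ∑ n ∈ Bc, μ.p n * ‖sh (σ ^ n) f - av σ μ f‖ ^ 2 ≤ ‖f‖ ^ 2 - ‖av σ μ f‖ ^ 2 := by
    rw [← variance]
    exact Finset.sum_le_sum_of_subset_of_nonneg (Finset.filter_subset _ _) 
      (fun n _ _ => mul_nonneg (μ.nn n) (sq_nonneg _))
  have h7 : ∑ n ∈ Bc, μ.p n * (‖sh (σ ^ n) f - av σ μ f‖ ^ 2 - s ^ 2) = 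
      ∑ n ∈ Bc, μ.p n * ‖sh (σ ^ n) f - av σ μ f‖ ^ 2 - (∑ n ∈ Bc, μ.p n) * s ^ 2 := by
    rw [Finset.sum_mul, ← Finset.sum_sub_distrib]
    exact Finset.sum_congr rfl fun n _ => by ring
  rw [h7] at h5
  have h8 : (1 - ε) * s ^ 2 ≤ (∑ n ∈ Bc, μ.p n) * s ^ 2 := mul_le_mul_of_nonneg_right h3 (sq_nonneg s)
  linarith

/-- a nearly invariant function is small on sets which are met at most twice by the orbits -/
theorem small_res (σ : Equiv.Perm X) (E : Set X) (hE : TwoVal σ E) (d : ℤ) (hd : d ≠ 0) (g : L2 X) (δ : ℝ) 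
    (h : ‖g - sh (σ ^ d) g‖ ≤ δ) : ‖res E g‖ ≤ ‖g‖ / 3 + 16 * δ := by
  classical
  have hδ : 0 ≤ δ := (norm_nonneg _).trans h
  set τ : ℕ → Equiv.Perm X := fun k => (σ ^ d) ^ (2 * k) with hτ
  have hnear : ∀ k : ℕ, ‖g - sh ((σ ^ d) ^ k) g‖ ≤ k * δ := by
    intro k
    induction k with
    | zero => rw [pow_zero, sh_one, sub_self, norm_zero]; simp
    | succ k ih =>
      rw [pow_succ]
      refine (near_mul _ _ g).trans ?_
      push_cast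
      linarith
  have hnear' : ∀ k : ℕ, k < 9 → ‖g - sh (τ k)⁻¹ g‖ ≤ 16 * δ := by
    intro k hk
    rw [near_inv]
    refine (hnear (2 * k)).trans ?_
    have : ((2 * k : ℕ) : ℝ) ≤ 16 := by
      have : 2 * k ≤ 16 := by omega
      exact_mod_cast this
    exact mul_le_mul_of_nonneg_right this hδ
  set S : ℕ → Set X := fun k => {x | τ k x ∈ E} with hS
  have hres : ∀ k : ℕ, res (S k) (sh (τ k)⁻¹ g) = sh (τ k)⁻¹ (res E g) := by
    intro k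
    apply lp.ext
    funext x
    rw [res_apply, sh_apply, sh_apply, res_apply, inv_inv]
    rfl
  have h1 : ∀ k : ℕ, k < 9 → ‖res E g‖ - 16 * δ ≤ ‖res (S k) g‖ := by
    intro k hk
    have e1 : ‖res E g‖ = ‖res (S k) (sh (τ k)⁻¹ g)‖ := by rw [hres, sh_norm]
    have e2 : ‖res (S k) g - res (S k) (sh (τ k)⁻¹ g)‖ ≤ 16 * δ := by
      rw [← res_sub]
      exact (res_norm_le _ _).trans (hnear' k hk)
    have e3 := norm_sub_norm_le (res (S k) (sh (τ k)⁻¹ g)) (res (S k) g)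
    rw [norm_sub_rev] at e3
    rw [e1]
    linarith
  have hdisj : ∀ (x : X) (k k' : ℕ), x ∈ S k → x ∈ S k' → k = k' := by
    intro x k k' hk hk'
    have e : ∀ k : ℕ, τ k = σ ^ (d * (2 * k : ℕ)) := by
      intro k
      rw [hτ, zpow_mul, zpow_natCast]
    have a1 : (σ ^ (d * (2 * k : ℕ))) x ∈ E := by rw [← e]; exact hk
    have a2 : (σ ^ (d * (2 * k' : ℕ))) x ∈ E := by rw [← e]; exact hk'
    have b1 := hE x _ _ a1 a2
    have b2 := hE x _ _ a2 a1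
    push_cast at b1 b2
    by_contra hne
    have hne' : (k : ℤ) - k' ≠ 0 := by omega
    have c1 : d * (2 * (k:ℤ)) - d * (2 * (k':ℤ)) = 2 * (d * ((k:ℤ) - k')) := by ring
    have c2 : d * ((k:ℤ) - k') ≠ 0 := mul_ne_zero hd hne'
    omega
  have h2 : ∑ k ∈ Finset.range 9, ‖res (S k) g‖ ^ 2 ≤ ‖g‖ ^ 2 := by
    have e1 : ∑ k ∈ Finset.range 9, ‖res (S k) g‖ ^ 2 = ∑' x, ∑ k ∈ Finset.range 9, (res (S k) g x) ^ 2 := by
      rw [Summable.tsum_finsetSum (fun k _ => summable_sq (res (S k) g))]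
      exact Finset.sum_congr rfl fun k _ => norm_sq _
    rw [e1, norm_sq]
    refine Summable.tsum_le_tsum (fun x => ?_) (summable_sum fun k _ => summable_sq (res (S k) g)) 
      (summable_sq g)
    by_cases hx : ∃ k ∈ Finset.range 9, x ∈ S k
    · obtain ⟨k0, hk0, hx0⟩ := hx
      rw [Finset.sum_eq_single_of_mem k0 hk0]
      · rw [res_apply, if_pos hx0]
      · intro k _ hne
        rw [res_apply, if_neg (fun hk => hne (hdisj x k k0 hk hx0))]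
        ring
    · push Not at hx
      rw [Finset.sum_eq_zero]
      · exact sq_nonneg _
      · intro k hk
        rw [res_apply, if_neg (hx k hk)]
        ring
  rcases le_or_gt (‖res E g‖ - 16 * δ) 0 with h3 | h3
  · have : 0 ≤ ‖g‖ := norm_nonneg g
    linarith
  · have h4 : 9 * (‖res E g‖ - 16 * δ) ^ 2 ≤ ‖g‖ ^ 2 := by
      have h5 : ∑ _k ∈ Finset.range 9, (‖res E g‖ - 16 * δ) ^ 2 ≤ ∑ k ∈ Finset.range 9, ‖res (S k) g‖ ^ 2 := by
        refine Finset.sum_le_sum fun k hk => ?_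
        exact pow_le_pow_left₀ h3.le (h1 k (Finset.mem_range.1 hk)) 2
      rw [Finset.sum_const, Finset.card_range, nsmul_eq_mul] at h5
      push_cast at h5
      linarith
    have h6 : (3 * (‖res E g‖ - 16 * δ)) ^ 2 ≤ ‖g‖ ^ 2 := by
      calc (3 * (‖res E g‖ - 16 * δ)) ^ 2 = 9 * (‖res E g‖ - 16 * δ) ^ 2 := by ring
        _ ≤ _ := h4
    have h7 := abs_le_of_sq_le_sq' h6 (norm_nonneg g)
    linarith [h7.2]

/-- two steps with nondegenerate distributions -/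
theorem pair_gap (σ σ' : Equiv.Perm X) (E E' N : Set X) (hE : TwoVal σ E) (hE' : TwoVal σ' E') 
    (hN : ∀ x, x ∈ N → x ∈ E ∨ x ∈ E') (hσ' : ∀ (n : ℤ) (x : X), (σ' ^ n) x ∈ N → x ∈ N) 
    (μ μ' : Law) (ε : ℝ) (hε0 : 0 ≤ ε) (hε : ε < 1) (hμ : μ.Spread ε) (hμ' : μ'.Spread ε) 
    (f : L2 X) (hf : ∀ x, x ∉ N → f x = 0) : 
    ‖av σ μ (av σ' μ' f)‖ ≤ (1 - (1 - ε) / 20000) * ‖f‖ := by
  classical
  by_contra hcon
  rw [not_le] at hcon
  obtain ⟨F, hF⟩ : ∃ F : ℝ, F = ‖f‖ := ⟨_, rfl⟩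
  rw [← hF] at hcon
  set g := av σ' μ' f with hg
  set a := av σ μ g with ha
  have hag : ‖a‖ ≤ ‖g‖ := av_norm_le _ _ _
  have hgf : ‖g‖ ≤ F := by rw [hF]; exact av_norm_le _ _ _
  have hF0 : 0 ≤ F := by rw [hF]; exact norm_nonneg _
  have hρ : (1 - 1 / 20000) * F ≤ (1 - (1 - ε) / 20000) * F := by
    apply mul_le_mul_of_nonneg_right _ hF0
    linarith
  have hFpos : 0 < F := by
    rcases hF0.lt_or_eq with h | h
    · exact h
    · rw [← h] at hcon hgf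
      linarith
  have hgN : ∀ x, x ∉ N → g x = 0 := by
    intro x hx
    rw [hg, av_apply]
    refine Finset.sum_eq_zero fun n _ => ?_
    rw [hf, mul_zero]
    intro h
    rw [inv_zpow'] at h
    exact hx (hσ' (-n) x h)
  have hV : F ^ 2 - ‖a‖ ^ 2 ≤ (1 - ε) * (F / 100) ^ 2 := by
    have e1 : ((1 - (1 - ε) / 20000) * F) ^ 2 ≤ ‖a‖ ^ 2 := 
      pow_le_pow_left₀ (by nlinarith) hcon.le 2
    have e2 : F ^ 2 - ((1 - (1 - ε) / 20000) * F) ^ 2 ≤ (1 - ε) * (F / 100) ^ 2 := by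
      have e3 : F ^ 2 - ((1 - (1 - ε) / 20000) * F) ^ 2 = 
          (1 - ε) * (F / 100) ^ 2 - ((1 - ε) / 20000 * F) ^ 2 := by ring
      rw [e3]
      have := sq_nonneg ((1 - ε) / 20000 * F)
      linarith
    linarith
  have hga : ‖g‖ ^ 2 ≤ F ^ 2 := pow_le_pow_left₀ (norm_nonneg _) hgf 2
  have haa : ‖a‖ ^ 2 ≤ ‖g‖ ^ 2 := pow_le_pow_left₀ (norm_nonneg _) hag 2
  obtain ⟨n0, n1, hn, hn0, hn1⟩ := exists_two σ μ ε hε0 hε hμ g (F / 100) (by positivity) 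
    (by rw [← ha]; linarith)
  obtain ⟨k0, k1, hk, hk0, hk1⟩ := exists_two σ' μ' ε hε0 hε hμ' f (F / 100) (by positivity) 
    (by rw [← hg, ← hF]; linarith)
  rw [← ha] at hn0 hn1
  rw [← hg] at hk0 hk1
  have near1 : ‖g - sh (σ ^ (n1 - n0)) g‖ ≤ F / 50 := by
    have e1 : sh (σ ^ n0) (g - sh (σ ^ (n1 - n0)) g) = sh (σ ^ n0) g - sh (σ ^ n1) g := by
      rw [sh_sub, ← sh_mul, ← zpow_add]
      congr 3
      ring
    rw [← sh_norm (σ ^ n0), e1]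
    have e2 : sh (σ ^ n0) g - sh (σ ^ n1) g = (sh (σ ^ n0) g - a) - (sh (σ ^ n1) g - a) := by abel
    rw [e2]
    refine (norm_sub_le _ _).trans ?_
    linarith
  have near2 : ‖g - sh (σ' ^ (k1 - k0)) g‖ ≤ F / 50 := by
    have e1 : g - sh (σ' ^ (k1 - k0)) g = 
        sh (σ' ^ (k1 - k0)) (sh (σ' ^ k0) f - g) - (sh (σ' ^ k1) f - g) := by
      rw [sh_sub, ← sh_mul, ← zpow_add]
      have : k1 - k0 + k0 = k1 := by ring
      rw [this]
      abel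
    rw [e1]
    refine (norm_sub_le _ _).trans ?_
    rw [sh_norm]
    linarith
  have r1 := small_res σ E hE (n1 - n0) (sub_ne_zero.2 (Ne.symm hn)) g (F / 50) near1
  have r2 := small_res σ' E' hE' (k1 - k0) (sub_ne_zero.2 (Ne.symm hk)) g (F / 50) near2
  have r3 := norm_le_two E E' g (fun x hx => by
    apply hN
    by_contra h
    exact hx (hgN x h))
  have hgF : (1 - 1 / 20000) * F < ‖g‖ := by linarith
  have hG0 : 0 < ‖g‖ := by nlinarith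
  have r4 : ‖g‖ / 3 + 16 * (F / 50) ≤ 0.7 * ‖g‖ := by
    nlinarith
  have r5 : ‖res E g‖ ^ 2 ≤ (0.7 * ‖g‖) ^ 2 := pow_le_pow_left₀ (norm_nonneg _) (r1.trans r4) 2
  have r6 : ‖res E' g‖ ^ 2 ≤ (0.7 * ‖g‖) ^ 2 := pow_le_pow_left₀ (norm_nonneg _) (r2.trans r4) 2
  nlinarith [sq_nonneg ‖g‖]

end Pool.Agent.Y463.VT
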