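import Pool.Agent.Y463.VT.GFin
import Pool.Agent.Y463.VT.Gap

/-!
# Nondegenerate distributions: the probability
-/

set_option autoImplicit false

namespace Pool.Agent.Y463.VT

open Finset LaurentPolynomial Pool.Agent.H891R2.Jones Pool.Agent.W639.RB Pool.Agent.Y463.SK 
  Pool.Agent.Y463.RW Pool.Agent.Y463.MP Pool.Agent.Y463.UT
open Pool.Agent.W705.JR (idx_lt inv' sgn sw cst2 push_up push_length L2 sh sh_mul sh_one sh_norm sh_apply Within)
open Pool.Agent.W705.JV (VLetter virt pushV drawV trV)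

variable {m : ℕ}

theorem site_gap {K R : Type} [Field K] [Ring R] [Algebra K R] [IsAlgClosed K] (D : TLD m K R) {Γ : Type} 
    [LinearOrderedCommGroupWithZero Γ] (v : Valuation K Γ) (hv : v D.t < 1) (ε : ℝ) (hε0 : 0 ≤ ε) 
    (hε : ε < 1) (a a' : Fin (m - 1) × Law) 
    (hs : SiteU m ε a a') (f : L2 (XX K (R × K) (Fin m → Bool))) (hf : ∀ x, x ∉ NX D → f x = 0) : 
    ‖av (sX D (true, a.1)) a.2 (av (sX D (true, a'.1)) a'.2 f)‖ ≤ (1 - (1 - ε) / 20000) * ‖f‖ := by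
  have hd : D.d ^ 2 - 1 ≠ 0 := D.d_ne v hv
  obtain ⟨hii, h1, h2⟩ := hs
  obtain ⟨i, hi, hcase⟩ : ∃ (i : ℕ) (hi : i + 2 < m), 
      (((true, a.1) : Letter m) = lt i (by omega) true ∧ ((true, a'.1) : Letter m) = lt (i+1) hi true) ∨ 
      (((true, a.1) : Letter m) = lt (i+1) hi true ∧ ((true, a'.1) : Letter m) = lt i (by omega) true) := by
    rcases hii with h | h
    · refine ⟨a.1, by have := a'.1.2; omega, Or.inl ⟨rfl, ?_⟩⟩
      exact Prod.ext rfl (Fin.ext h.symm)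
    · refine ⟨a'.1, by have := a.1.2; omega, Or.inr ⟨?_, rfl⟩⟩
      exact Prod.ext rfl (Fin.ext h.symm)
  obtain ⟨Q, hQ⟩ := equi (TT D hd i hi) (goodR D i) (fun g p hp => goodR_inv D hd i hi g p hp) 
    (fun p hp => exists_qR D hd i hi p hp)
  have tI := two_near D hd i hi Q hQ (sX D (lt i (by omega) true)) (gYi D.t_ne) (pr_left D hd i hi) 
    (NearI v D.t) (NearI_smul v) (fun q n n' => nearI_two v D.t_ne hv q n n')
  have tJ := two_near D hd i hi Q hQ (sX D (lt (i+1) hi true)) (gYj D.t_ne) (pr_right D hd i hi) 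
    (NearJ v D.t) (NearJ_smul v) (fun q n n' => nearJ_two v D.t_ne hv q n n')
  have hcov : ∀ y, y ∈ NX D → (pr y.2 ∈ goodR D i ∧ NearI v D.t (Q (pr y.2))) ∨ 
      (pr y.2 ∈ goodR D i ∧ NearJ v D.t (Q (pr y.2))) := by
    intro y hy
    have hg := NX_good D hd i hi y hy
    rcases cover v D.t_ne hv (Q (pr y.2)) (hQ _ hg).1 with h | h
    · exact Or.inl ⟨hg, h⟩
    · exact Or.inr ⟨hg, h⟩
  rcases hcase with ⟨e1, e2⟩ | ⟨e1, e2⟩
  · rw [← e1] at tI
    rw [← e2] at tJ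
    exact pair_gap _ _ _ _ (NX D) tI tJ hcov (fun n x hx => NX_zpow D a'.1 n x hx) a.2 a'.2 ε hε0 hε h1 h2 
      f hf
  · rw [← e2] at tI
    rw [← e1] at tJ
    exact pair_gap _ _ _ _ (NX D) tJ tI (fun y hy => (hcov y hy).symm) 
      (fun n x hx => NX_zpow D a'.1 n x hx) a.2 a'.2 ε hε0 hε h1 h2 f hf

section red

variable (L : Type) [Field L] [Algebra ℤ[T;T⁻¹] L]

theorem site_redG (hm : 3 ≤ m) (B : ℝ) (c : List (Fin (m - 1))) 
    (i : Fin (m - 1)) (w : List (Fin (m - 1))) (i' : Fin (m - 1)) (hcom : OneCommon i w i') (μ μ' : Law) 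
    (hB : ∀ f : L2 (XX L (TVL L m × L) (Fin m → Bool)), (∀ x, x ∉ NX (DV L m) → f x = 0) → 
      ‖av (sX (DV L m) (true, ⟨0, by omega⟩)) μ (av (sX (DV L m) (true, ⟨1, by omega⟩)) μ' f)‖ ≤ B * ‖f‖) 
    (f : L2 (XX L (TVL L m × L) (Fin m → Bool))) (hf : ∀ x, x ∉ NXV L → f x = 0) : 
    ‖av (sG L (c, i)) μ (av (sG L (c ++ w, i')) μ' f)‖ ≤ B * ‖f‖ := by
  obtain ⟨b, hb⟩ := Finset.card_eq_one.1 hcom
  have hb0 : b ∈ pair i ∩ (pair i').map (pm w).toEmbedding := by rw [hb]; exact Finset.mem_singleton_self b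
  rw [Finset.mem_inter] at hb0
  obtain ⟨hb1, hb2⟩ := hb0
  obtain ⟨a, hab, hpi⟩ := pair_other i b hb1
  rw [Finset.mem_map] at hb2
  obtain ⟨b', hb', hbb'⟩ := hb2
  have hbb : pm w b' = b := hbb'
  obtain ⟨c', hcb', hpi'⟩ := pair_other i' b' hb'
  set d := pm w c' with hd
  have hdb : d ≠ b := by
    intro h
    rw [← hbb, hd] at h
    exact hcb' ((pm w).injective h)
  have had : a ≠ d := by
    intro h
    have h3 : a ∈ pair i ∩ (pair i').map (pm w).toEmbedding := by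
      rw [Finset.mem_inter]
      constructor
      · rw [hpi]; exact Finset.mem_insert_self _ _
      · rw [h, Finset.mem_map]
        exact ⟨c', by rw [hpi']; exact Finset.mem_insert_self _ _, rfl⟩
    rw [hb, Finset.mem_singleton] at h3
    exact hab h3
  obtain ⟨π, hπ0, hπ1, hπ2⟩ := exists_perm3 (⟨0, by omega⟩ : Fin m) ⟨1, by omega⟩ ⟨2, by omega⟩ a b d 
    (by simp) (by simp) (by simp) hab had hdb.symm
  obtain ⟨z, hz⟩ := exists_word (by omega) π
  obtain ⟨z', hz'⟩ := exists_word (by omega) ((pm w)⁻¹ * π)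
  have p0 : (pair (⟨0, by omega⟩ : Fin (m - 1))).map (pm z).toEmbedding = pair i := by
    rw [hpi, hz]
    unfold pair
    rw [Finset.map_insert, Finset.map_singleton]
    show ({π ⟨0, by omega⟩, π ⟨1, by omega⟩} : Finset (Fin m)) = {a, b}
    rw [hπ0, hπ1]
  have p1 : (pair (⟨1, by omega⟩ : Fin (m - 1))).map (pm z').toEmbedding = pair i' := by
    rw [hpi', hz']
    unfold pair
    rw [Finset.map_insert, Finset.map_singleton]
    show ({(pm w)⁻¹ (π ⟨1, by omega⟩), (pm w)⁻¹ (π ⟨2, by omega⟩)} : Finset (Fin m)) = {c', b'}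
    have e1 : (pm w)⁻¹ b = b' := by rw [Equiv.Perm.inv_eq_iff_eq]; exact hbb.symm
    have e2 : (pm w)⁻¹ d = c' := by rw [Equiv.Perm.inv_eq_iff_eq]
    rw [hπ1, hπ2, e1, e2, Finset.pair_comm]
  have q0 := conj_sX L z _ _ p0
  have q1 := conj_sX L z' _ _ p1
  have q2 : wVX L (vl w) * wVX L (vl z') = wVX L (vl z) := by
    rw [← wVX_append, ← vl_append]
    apply wVX_congr
    rw [pm_append, hz, hz', mul_inv_cancel_left]
  set g := wVX L (vl c) * wVX L (vl z) with hg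
  have r0 : sG L (c, i) = g * sX (DV L m) (true, ⟨0, by omega⟩) * g⁻¹ := by
    show wVX L (vl c) * sX (DV L m) (true, i) * (wVX L (vl c))⁻¹ = _
    have : sX (DV L m) (true, i) = 
        wVX L (vl z) * sX (DV L m) (true, ⟨0, by omega⟩) * (wVX L (vl z))⁻¹ := by
      rw [q0, mul_inv_cancel_right]
    rw [this, hg]
    group
  have r1 : sG L (c ++ w, i') = g * sX (DV L m) (true, ⟨1, by omega⟩) * g⁻¹ := by
    show wVX L (vl (c ++ w)) * sX (DV L m) (true, i') * (wVX L (vl (c ++ w)))⁻¹ = _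
    have : sX (DV L m) (true, i') = 
        wVX L (vl z') * sX (DV L m) (true, ⟨1, by omega⟩) * (wVX L (vl z'))⁻¹ := by
      rw [q1, mul_inv_cancel_right]
    rw [this, hg, vl_append, wVX_append, ← q2]
    group
  rw [r0, r1, av_conj, av_conj]
  have e3 : ∀ h : L2 (XX L (TVL L m × L) (Fin m → Bool)), sh g⁻¹ (sh g h) = h := by
    intro h
    rw [← sh_mul, inv_mul_cancel, sh_one]
  rw [e3, sh_norm]
  have e4 := hB (sh g⁻¹ f) (fun x hx => by
      rw [sh_apply, inv_inv]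
      apply hf
      intro h
      apply hx
      apply NXV_sub
      have h3 : g = wVX L (vl c ++ vl z) := by rw [wVX_append]
      rw [h3] at h
      exact NXV_word L _ x h)
  rw [sh_norm] at e4
  exact e4

end red

/-- the factor -/
noncomputable def rho (ε : ℝ) : ℝ := 1 - (1 - ε) / 20000

section prob

variable (l : ℕ) [Fact l.Prime]

theorem mainH (hm : 3 ≤ m) (O : Outer m) (z : LL l) (k : ℕ) (v : Fin k → List (Fin (m - 1))) 
    (i : Fin k → Fin (m - 1)) (μ : Fin k → Law) (ε : ℝ) (hε0 : 0 ≤ ε) (hε : ε < 1) (u : ℕ) 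
    (hu : u * ((rV m + 1) * (rV m + 2)) ≤ turnsG v i μ ε) : 
    probG l v i μ O z ≤ CG m * rho ε ^ u := by
  classical
  have hm0 : 0 < m := by omega
  have hstart : wVX (LL l) (vl ([] : List (Fin (m - 1)))) (stV l hm0 O z) = stV l hm0 O z := rfl
  obtain ⟨V, hV⟩ := exists_valuation l
  obtain ⟨hfin, hrank⟩ := finrank_TVL (LL l) m
  have ht : V.valuation (Dv l m).t < 1 := by
    have h1 : (Dv l m).t = (jj l Polynomial.X) ^ 2 := by
      show (phi l (T 1)) ^ 2 = _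
      rw [phi_T, zpow_one]
    rw [h1, map_pow]
    exact pow_lt_one₀ zero_le hV two_ne_zero
  have hdim : Module.finrank (LL l) (VV l m) ≤ rV m + 1 := by
    rw [Module.finrank_prod, Module.finrank_self]
    omega
  rw [← hit_stG l hm0 z k [] v i μ O, hstart]
  have hρ0 : 0 < rho ε := by unfold rho; linarith
  have hρ1 : rho ε ≤ 1 := by unfold rho; linarith
  have hcard : Fintype.card (Fin m → Bool) = 2 ^ m := by simp
  have hdec := decay (ξ := xiC l ([] ++ (List.ofFn v).flatten)) (Site := SiteG m ε) 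
    (fun c => sG_fib (LL l) c) 
    (NXV (LL l)) (fun c n x hx => by
      rw [sG_zpow] at hx
      exact NXV_word (LL l) _ x hx) (fun U => NXV_bot (LL l) (by omega) U) 
    (WV l hm0) (fun x hx c n => by
      rw [sG_zpow]
      exact WV_word l hm0 _ x hx) 
    (fun U W hUW W' hW' => by
      obtain ⟨O', z', h1, h2⟩ := hUW
      exact ⟨O', z', h1, hW'.trans h2⟩) 
    (fun x hx hN => WV_xiC l hm0 _ x hx hN) (rho ε) hρ0 hρ1 
    (fun b b' hs f hf => by
      obtain ⟨w, h1, h2, h3, h4⟩ := hs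
      obtain ⟨⟨c, i0⟩, μ0⟩ := b
      obtain ⟨⟨c', i1⟩, μ1⟩ := b'
      have h1' : c' = c ++ w := h1
      subst h1'
      exact site_redG (LL l) hm (rho ε) c i0 w i1 h2 μ0 μ1 
        (fun f hf => site_gap (Dv l m) V.valuation ht ε hε0 hε (⟨0, by omega⟩, μ0) (⟨1, by omega⟩, μ1) 
          ⟨Or.inl rfl, h3, h4⟩ f hf) f hf) u 
    (rV m + 1) (stV l hm0 O z) ⟨O, z, rfl, le_rfl⟩ ((Submodule.finrank_le _).trans hdim) 
    (List.ofFn (fun j : Fin k => ((cw [] v j, i j), μ j))) ?_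
  · rw [hcard] at hdec
    exact hdec
  · apply UT.con_of_cnt
    rw [← cnt_ofFn]
    have h2 : 2 * ((rV m + 1) * (rV m + 1 + 1) / 2 * u) ≤ 
        u * ((rV m + 1) * (rV m + 2)) := by
      have h3 : 2 * ((rV m + 1) * (rV m + 1 + 1) / 2) ≤ 
          (rV m + 1) * (rV m + 1 + 1) := Nat.mul_div_le _ _
      calc 2 * ((rV m + 1) * (rV m + 1 + 1) / 2 * u) 
          = (2 * ((rV m + 1) * (rV m + 1 + 1) / 2)) * u := by ring
        _ ≤ ((rV m + 1) * (rV m + 1 + 1)) * u := Nat.mul_le_mul_right _ h3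
        _ = _ := by ring
    refine le_trans h2 (le_trans hu (le_trans ?_ (Nat.le_succ _)))
    unfold turnsG
    apply Finset.card_le_card
    intro j hj
    rw [Finset.mem_filter] at hj ⊢
    obtain ⟨_, h, h2, h3, h4⟩ := hj
    exact ⟨Finset.mem_univ _, h, v ⟨j + 1, h⟩, cw_next [] v j h, h2, h3, h4⟩

theorem mainH' (hm : 3 ≤ m) (O : Outer m) (z : LL l) (k : ℕ) 
    (v : Fin k → List (Fin (m - 1))) (i : Fin k → Fin (m - 1)) (μ : Fin k → Law) (ε : ℝ) (hε0 : 0 ≤ ε) 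
    (hε : ε < 1) (u : ℕ) (hu : u * ((rV m + 1) * (rV m + 2)) ≤ turnsG v i μ ε) : 
    prob μ (fun x => phi l (diaV O (twG v i x)).fPoly = z) ≤ CG m * rho ε ^ u := by
  classical
  refine le_trans (le_of_eq ?_) (mainH l hm O z k v i μ ε hε0 hε u hu)
  rw [prob_eq]
  unfold probG
  rfl

end prob

theorem finalH (hm : 3 ≤ m) (N : ℕ) (hN : 2 ≤ N) (O : Outer m) (g : ℤ[T;T⁻¹]) (k : ℕ) 
    (v : Fin k → List (Fin (m - 1))) (i : Fin k → Fin (m - 1)) (μ : Fin k → Law) (ε : ℝ) (hε0 : 0 ≤ ε) 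
    (hε : ε < 1) (u : ℕ) (hu : u * ((rV m + 1) * (rV m + 2)) ≤ turnsG v i μ ε) : 
    prob μ (fun x => (N : ℤ[T;T⁻¹]) ∣ (diaV O (twG v i x)).fPoly - g) ≤ CG m * rho ε ^ u := by
  classical
  have hlp : N.minFac.Prime := Nat.minFac_prime (by omega)
  haveI : Fact N.minFac.Prime := ⟨hlp⟩
  exact le_trans (prob_mono μ _ (fun x => phi N.minFac (diaV O (twG v i x)).fPoly = phi N.minFac g) 
    (fun x _ hx => dvd_phi N.minFac (Nat.minFac_dvd N) _ _ hx)) 
    (mainH' N.minFac hm O (phi N.minFac g) k v i μ ε hε0 hε u hu)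

/-- few coefficients -/
theorem finalH2 (hm : 3 ≤ m) (N : ℕ) (hN : 2 ≤ N) (κ : ℝ) (ε : ℝ) (hε0 : 0 ≤ ε) (hε : ε < 1) : 
    ∃ δ : ℝ, 0 < δ ∧ ∃ C' : ℝ, ∀ (O : Outer m) (k : ℕ) (v : Fin k → List (Fin (m - 1))) 
      (i : Fin k → Fin (m - 1)) (μ : Fin k → Law) (u : ℕ), 
        u * ((rV m + 1) * (rV m + 2)) ≤ turnsG v i μ ε → 
        (∀ x ∈ Fintype.piFinset (fun j => (μ j).A), (osize O : ℝ) + ∑ j, |(x j : ℝ)| ≤ κ * (u + 1)) → 
        prob μ (fun x => (nonmult N (diaV O (twG v i x)).fPoly : ℝ) ≤ δ * u) ≤ C' * √(rho ε) ^ u := by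
  classical
  have hρ0 : 0 < rho ε := by unfold rho; linarith
  have hρ1 : rho ε < 1 := by unfold rho; linarith
  set b : ℝ := - Real.log (rho ε) / 4 with hb
  have hb0 : 0 < b := by
    have := Real.log_neg hρ0 hρ1
    rw [hb]; linarith
  have hsq : ∀ s : ℕ, (√(rho ε)) ^ s = Real.exp (-(2 * b) * s) := by
    intro s
    have h1 : -(2 * b) = Real.log (√(rho ε)) := by
      rw [Real.log_sqrt hρ0.le, hb]; ring
    rw [h1, Real.exp_mul, Real.exp_log (Real.sqrt_pos.2 hρ0), Real.rpow_natCast]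
  have hfull : ∀ s : ℕ, (rho ε) ^ s = Real.exp (-(4 * b) * s) := by
    intro s
    have h1 : -(4 * b) = Real.log (rho ε) := by rw [hb]; ring
    rw [h1, Real.exp_mul, Real.exp_log hρ0, Real.rpow_natCast]
  set l := N.minFac with hl
  have hlp : l.Prime := Nat.minFac_prime (by omega)
  haveI : Fact l.Prime := ⟨hlp⟩
  have hdvd : l ∣ N := Nat.minFac_dvd N
  set κ' : ℝ := max κ 0 with hκ'
  have hκ0 : 0 ≤ κ' := le_max_right _ _
  have hκκ : κ ≤ κ' := le_max_left _ _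
  set c : ℝ := (8 + 4 * m) * (2 * κ') + 3 with hc
  have hc0 : 0 < c := by positivity
  obtain ⟨x, δ, hx0, hx1, hδ, hS, hk⟩ := pick l hlp.two_le c b hc0 hb0
  have hCG : 1 ≤ CG m := cst_ge _ _
  refine ⟨δ, hδ, CG m + 1, ?_⟩
  intro O k v i μ u hu hsz
  rcases Nat.eq_zero_or_pos u with hu0 | hu0
  · rw [hu0, pow_zero]
    refine (prob_le_one μ _).trans ?_
    linarith
  have hu1 : (1:ℝ) ≤ u := by exact_mod_cast hu0
  set W : ℕ := ⌊(4 + 2 * (m:ℝ)) * (κ' * (2 * u))⌋₊ with hW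
  have hWle : (W : ℝ) ≤ (4 + 2 * (m:ℝ)) * (κ' * (2 * u)) := Nat.floor_le (by positivity)
  have hwin : ∀ x ∈ Fintype.piFinset (fun j => (μ j).A), Within W (diaV O (twG v i x)).fPoly := by
    intro x hx
    refine (within_diaV O (twG v i x)).mono ?_
    apply Nat.le_floor
    have h1 := hsz x hx
    have h2 : (nr (twG v i x) : ℝ) = ∑ j, |(x j : ℝ)| := by
      have := nr_twG v i x
      have h3 : ((nr (twG v i x) : ℤ) : ℝ) = ((∑ j, |x j| : ℤ) : ℝ) := by rw [this]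
      push_cast at h3
      exact h3
    rw [← h2] at h1
    have h4 : κ * ((u:ℝ) + 1) ≤ κ' * (2 * u) := by
      have e1 : κ * ((u:ℝ) + 1) ≤ κ' * ((u:ℝ) + 1) := mul_le_mul_of_nonneg_right hκκ (by positivity)
      exact e1.trans (mul_le_mul_of_nonneg_left (by linarith) hκ0)
    have h5 := h1.trans h4
    have h6 : (win O (nr (twG v i x)) : ℝ) ≤ (4 + 2 * m) * (osize O + nr (twG v i x)) := by
      unfold win osize
      push_cast
      have h1 : (0:ℝ) ≤ Nat.card O.P := Nat.cast_nonneg _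
      have h2 : (0:ℝ) ≤ O.crossings.length := Nat.cast_nonneg _
      have h3 : (0:ℝ) ≤ m := Nat.cast_nonneg _
      nlinarith [mul_nonneg h3 h1, mul_nonneg h3 h2]
    exact h6.trans (mul_le_mul_of_nonneg_left h5 (by positivity))
  have h1 := few_gen l (Fintype.piFinset (fun j => (μ j).A)) (fun x => (diaV O (twG v i x)).fPoly) 
    (fun x => ∏ j, (μ j).p (x j)) (fun x => Finset.prod_nonneg fun j _ => (μ j).nn _) W hwin 
    (CG m * rho ε ^ u) (fun z => by
      have := mainH' l hm O z k v i μ ε hε0 hε u hu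
      rw [prob_eq] at this
      exact this) ⌊δ * u⌋₊ x hx0 hx1.le
  set P := ∑ x ∈ Fintype.piFinset (fun j => (μ j).A), 
    (if nonmult l (diaV O (twG v i x)).fPoly ≤ ⌊δ * u⌋₊ then ∏ j, (μ j).p (x j) else 0) with hP
  have h2 : prob μ (fun x => (nonmult N (diaV O (twG v i x)).fPoly : ℝ) ≤ δ * u) ≤ P := by
    rw [prob_eq]
    refine Finset.sum_le_sum fun x _ => ?_
    have hpos : 0 ≤ ∏ j, (μ j).p (x j) := Finset.prod_nonneg fun j _ => (μ j).nn _
    by_cases h3 : (nonmult N (diaV O (twG v i x)).fPoly : ℝ) ≤ δ * u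
    · have h4 : nonmult l (diaV O (twG v i x)).fPoly ≤ ⌊δ * u⌋₊ := by
        apply Nat.le_floor
        refine le_trans ?_ h3
        exact_mod_cast nonmult_mono hdvd _
      rw [if_pos h3, if_pos h4]
    · rw [if_neg h3]
      split_ifs
      · exact hpos
      · exact le_rfl
  refine h2.trans ?_
  have hP0 : 0 ≤ P := (prob_nonneg μ _).trans h2
  have hwin2 : ((2 * W + 1 : ℕ) : ℝ) ≤ c * u := by
    push_cast
    rw [hc]
    nlinarith
  have e3 := hS u (2 * W + 1) hwin2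
  have e4 := hk u ⌊δ * u⌋₊ (Nat.floor_le (by positivity))
  have hCr : 0 ≤ CG m * rho ε ^ u := by positivity
  calc P ≤ P * (Real.exp (b * u) * x ^ ⌊δ * u⌋₊) := le_mul_of_one_le_right hP0 e4
    _ = (P * x ^ ⌊δ * u⌋₊) * Real.exp (b * u) := by ring
    _ ≤ ((1 + (l - 1) * x) ^ (2 * W + 1) * (CG m * rho ε ^ u)) * Real.exp (b * u) := 
        mul_le_mul_of_nonneg_right h1 (Real.exp_pos _).le
    _ ≤ (Real.exp (b * u) * (CG m * rho ε ^ u)) * Real.exp (b * u) := by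
        apply mul_le_mul_of_nonneg_right _ (Real.exp_pos _).le
        exact mul_le_mul_of_nonneg_right e3 hCr
    _ = CG m * √(rho ε) ^ u := by
        rw [hsq, hfull]
        have : Real.exp (-(2 * b) * u) = 
            Real.exp (b * u) * Real.exp (-(4 * b) * u) * Real.exp (b * u) := by
          rw [← Real.exp_add, ← Real.exp_add]
          congr 1
          ring
        rw [this]; ring
    _ ≤ (CG m + 1) * √(rho ε) ^ u := by
        have : 0 ≤ √(rho ε) ^ u := by positivity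
        nlinarith

/-- short diagrams -/
theorem finalH3 (N : ℕ) (κ ε δ C' : ℝ) (hε0 : 0 ≤ ε) (hε : ε < 1) (hδ : 0 < δ) 
    (hC : ∀ (O : Outer m) (k : ℕ) (v : Fin k → List (Fin (m - 1))) 
      (i : Fin k → Fin (m - 1)) (μ : Fin k → Law) (u : ℕ), 
        u * ((rV m + 1) * (rV m + 2)) ≤ turnsG v i μ ε → 
        (∀ x ∈ Fintype.piFinset (fun j => (μ j).A), (osize O : ℝ) + ∑ j, |(x j : ℝ)| ≤ κ * (u + 1)) → 
        prob μ (fun x => (nonmult N (diaV O (twG v i x)).fPoly : ℝ) ≤ δ * u) ≤ C' * √(rho ε) ^ u) : 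
    ∃ C'' : ℝ, ∀ (O : Outer m) (k : ℕ) (v : Fin k → List (Fin (m - 1))) 
      (i : Fin k → Fin (m - 1)) (μ : Fin k → Law) (u : ℕ), 
        u * ((rV m + 1) * (rV m + 2)) ≤ turnsG v i μ ε → 
        (∀ x ∈ Fintype.piFinset (fun j => (μ j).A), (osize O : ℝ) + ∑ j, |(x j : ℝ)| ≤ κ * (u + 1)) → 
        prob μ (fun x => ∃ (P : Type) (_ : Finite P) (D : Diagram P), (dsize D : ℝ) ≤ δ / 8 * u ∧ 
          (N : ℤ[T;T⁻¹]) ∣ (diaV O (twG v i x)).fPoly - D.fPoly) ≤ C'' * √(rho ε) ^ u := by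
  classical
  have hρ0 : 0 < rho ε := by unfold rho; linarith
  have hρ1 : rho ε < 1 := by unfold rho; linarith
  set r := √(rho ε) with hr
  have hr0 : 0 < r := Real.sqrt_pos.2 hρ0
  have hr1 : r ≤ 1 := by
    rw [hr]
    refine (Real.sqrt_le_sqrt hρ1.le).trans ?_
    rw [Real.sqrt_one]
  obtain ⟨n₀, hn₀⟩ := exists_nat_gt (2 / δ)
  refine ⟨max C' (1 / r ^ n₀), ?_⟩
  intro O k v i μ u hu hsz
  rcases Nat.lt_or_ge u n₀ with hn | hn
  · refine (prob_le_one μ _).trans ?_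
    have h1 : (1:ℝ) ≤ 1 / r ^ n₀ * r ^ u := by
      have h2 : r ^ n₀ ≤ r ^ u := pow_le_pow_of_le_one hr0.le hr1 hn.le
      rw [one_div, ← div_eq_inv_mul, one_le_div (pow_pos hr0 _)]
      exact h2
    exact h1.trans (mul_le_mul_of_nonneg_right (le_max_right _ _) (pow_pos hr0 u).le)
  · refine le_trans ?_ ((hC O k v i μ u hu hsz).trans 
      (mul_le_mul_of_nonneg_right (le_max_left _ _) (pow_pos hr0 u).le))
    apply prob_mono
    rintro x _ ⟨P, hP, D, hD1, hD2⟩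
    have h1 := nonmult_congr N _ _ hD2
    have h2 := nonmult_le_dsize N D
    show (nonmult N (diaV O (twG v i x)).fPoly : ℝ) ≤ δ * u
    rw [h1]
    have h3 : (nonmult N D.fPoly : ℝ) ≤ 4 * dsize D + 1 := by exact_mod_cast h2
    have h4 : (n₀ : ℝ) ≤ u := by exact_mod_cast hn
    have h5 : 2 < δ * u := by
      rw [div_lt_iff₀ hδ] at hn₀
      nlinarith
    linarith

end Pool.Agent.Y463.VT
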