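import Pool.Agent.Y463.VT.Act
import Pool.Agent.Y463.UT.Fin

/-!
# The probability
-/

set_option autoImplicit false

namespace Pool.Agent.Y463.VT

open Finset LaurentPolynomial Pool.Agent.H891R2.Jones Pool.Agent.W639.RB Pool.Agent.Y463.SK 
  Pool.Agent.Y463.RW Pool.Agent.Y463.MP Pool.Agent.Y463.UT
open Pool.Agent.W705.JV (VLetter virt pushV drawV)

variable {m : ℕ} (l : ℕ) [Fact l.Prime]

open Classical in
/-- the probability of the value `z` -/
noncomputable def probV {k : ℕ} (a : Fin k → Fin (m - 1) ⊕ Fin (m - 1)) (μ : Fin k → Law) (O : Outer m) 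
    (z : LL l) : ℝ :=
  ∑ x ∈ Fintype.piFinset (fun j => (μ j).A), 
    if phi l (diaV O (twV a x)).fPoly = z then ∏ j, (μ j).p (x j) else 0

theorem twV_succ {k : ℕ} (a : Fin (k+1) → Fin (m - 1) ⊕ Fin (m - 1)) (n : ℤ) (x : Fin k → ℤ) : 
    twV a (Fin.cons n x : Fin (k+1) → ℤ) = pwV (a 0) n ++ twV (fun j => a j.succ) x := by
  unfold twV
  rw [List.ofFn_succ, List.flatten_cons]
  rfl

theorem hit_stV (hm : 0 < m) (z : LL l) : ∀ (k : ℕ) (a : Fin k → Fin (m - 1) ⊕ Fin (m - 1)) 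
    (μ : Fin k → Law) (O : Outer m), 
    UT.hit (sJ (m := m) (LL l)) (xiV l m) (List.ofFn (fun j => (a j, μ j))) 
      (stV l hm O z) = probV l a μ O z
  | 0, a, μ, O => by
    classical
    unfold probV
    rw [List.ofFn_zero]
    unfold UT.hit
    have h1 : Fintype.piFinset (fun j : Fin 0 => (μ j).A) = {default} := by
      ext x
      rw [Fintype.mem_piFinset, Finset.mem_singleton]
      exact ⟨fun _ => Subsingleton.elim _ _, fun _ j => j.elim0⟩
    rw [h1, Finset.sum_singleton]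
    have h : diaV O (twV a (default : Fin 0 → ℤ)) = O.close := rfl
    have h0 : (diaV O (twV a (default : Fin 0 → ℤ))).fPoly = O.close.fPoly := rfl
    rw [h0]
    have h2 : xiV l m ∈ (stV l hm O z).2 ↔ phi l O.close.fPoly = z := xiV_mem l hm O z
    simp only [h2, Finset.univ_eq_empty, Finset.prod_empty]
  | (k+1), a, μ, O => by
    classical
    rw [List.ofFn_succ]
    unfold UT.hit probV
    rw [sum_pi_succ]
    refine Finset.sum_congr rfl fun n _ => ?_
    have h1 : ((sJ (LL l) (a 0)) ^ n)⁻¹ (stV l hm O z) = 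
        stV l hm (drawV O (pwV (a 0) n)) z := by
      rw [← wVX_pwV, stV_word]
    show (μ 0).p n * UT.hit _ _ _ (((sJ (LL l) (a 0)) ^ n)⁻¹ (stV l hm O z)) = _
    rw [h1, hit_stV hm z k, probV, Finset.mul_sum]
    refine Finset.sum_congr rfl fun x _ => ?_
    have h3 : (diaV (drawV O (pwV (a 0) n)) (twV (fun j => a j.succ) x)).fPoly = 
        (diaV O (twV a (Fin.cons n x : Fin (k+1) → ℤ))).fPoly := by
      unfold diaV
      rw [twV_succ, drawV_append]
    rw [h3, Fin.prod_univ_succ]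
    simp only [Fin.cons_zero, Fin.cons_succ]
    split_ifs <;> ring

/-- two steps at neighbouring places with spread distributions -/
def SiteV (m : ℕ) (ε : ℝ) (a a' : (Fin (m - 1) ⊕ Fin (m - 1)) × Law) : Prop := 
  ∃ p q : Fin (m - 1), a.1 = .inl p ∧ a'.1 = .inl q ∧ SiteU m ε (p, a.2) (q, a'.2)

/-- the constant -/
noncomputable def CV (m : ℕ) : ℝ := UT.cst (2 ^ m) (rV m + 1)

theorem mainV (hm : 3 ≤ m) (O : Outer m) (z : LL l) (k : ℕ) (a : Fin k → Fin (m - 1) ⊕ Fin (m - 1)) 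
    (μ : Fin k → Law) (ε : ℝ) (hε : 0 < ε) (u : ℕ) 
    (hu : u * ((rV m + 1) * (rV m + 2)) ≤ turnsV a μ ε) : 
    probV l a μ O z ≤ CV m * √(8 * ε) ^ u := by
  classical
  have hm0 : 0 < m := by omega
  have hC1 : 1 ≤ CV m := cst_ge _ _
  rcases le_or_gt (√(8 * ε)) 1 with hρ1 | hρ1
  · obtain ⟨V, hV⟩ := exists_valuation l
    obtain ⟨hfin, hrank⟩ := finrank_TVL (LL l) m
    have ht : V.valuation (Dv l m).t < 1 := by
      have h1 : (Dv l m).t = (jj l Polynomial.X) ^ 2 := by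
        show (phi l (T 1)) ^ 2 = _
        rw [phi_T, zpow_one]
      rw [h1, map_pow]
      exact pow_lt_one₀ zero_le hV two_ne_zero
    have hdim : Module.finrank (LL l) (VV l m) ≤ rV m + 1 := by
      rw [Module.finrank_prod, Module.finrank_self]
      omega
    rw [← hit_stV l hm0 z k a μ O]
    have hρ0 : 0 < √(8 * ε) := Real.sqrt_pos.2 (by positivity)
    have hcard : Fintype.card (Fin m → Bool) = 2 ^ m := by simp
    have hdec := decay (ξ := xiV l m) (Site := SiteV m ε) (fun j => sJ_fib (LL l) j) 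
      (NXV (LL l)) (fun j n x hx => NXV_zpow (LL l) j n x hx) (fun U => NXV_bot (LL l) (by omega) U) 
      (WV l hm0) (fun x hx j n => WV_zpow l hm0 x hx j n) 
      (fun U W hUW W' hW' => by
        obtain ⟨O', z', h1, h2⟩ := hUW
        exact ⟨O', z', h1, hW'.trans h2⟩) 
      (fun x hx hN => WV_xi l hm0 x hx hN) (√(8 * ε)) hρ0 hρ1 
      (fun b b' hs f hf => by
        obtain ⟨p, q, h1, h2, h3⟩ := hs
        rw [h1, h2]
        exact site_norm (Dv l m) V.valuation ht ε hε.le (p, b.2) (q, b'.2) h3 f 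
          (fun x hx => hf x (fun h => hx (NXV_sub (LL l) x h)))) u 
      (rV m + 1) (stV l hm0 O z) ⟨O, z, rfl, le_rfl⟩ ((Submodule.finrank_le _).trans hdim) 
      (List.ofFn (fun j => (a j, μ j))) ?_
    · rw [hcard] at hdec
      exact hdec
    · apply UT.con_of_cnt
      rw [← cnt_ofFn]
      have h1 : turnsV a μ ε ≤ (univ.filter (fun j : Fin k => ∃ h : (j : ℕ) + 1 < k, 
          SiteV m ε (a j, μ j) (a ⟨j + 1, h⟩, μ ⟨j + 1, h⟩))).card := by
        unfold turnsV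
        apply Finset.card_le_card
        intro j hj
        rw [Finset.mem_filter] at hj ⊢
        obtain ⟨_, h, p, q, e1, e2, h2, h3, h4⟩ := hj
        exact ⟨Finset.mem_univ _, h, p, q, e1, e2, h2, h3, h4⟩
      have h2 : 2 * ((rV m + 1) * (rV m + 1 + 1) / 2 * u) ≤ 
          u * ((rV m + 1) * (rV m + 2)) := by
        have h3 : 2 * ((rV m + 1) * (rV m + 1 + 1) / 2) ≤ 
            (rV m + 1) * (rV m + 1 + 1) := Nat.mul_div_le _ _
        calc 2 * ((rV m + 1) * (rV m + 1 + 1) / 2 * u) 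
            = (2 * ((rV m + 1) * (rV m + 1 + 1) / 2)) * u := by ring
          _ ≤ ((rV m + 1) * (rV m + 1 + 1)) * u := Nat.mul_le_mul_right _ h3
          _ = _ := by ring
      have h4 : (univ.filter (fun j : Fin k => ∃ h : (j : ℕ) + 1 < k, 
          SiteV m ε (a j, μ j) (a ⟨j + 1, h⟩, μ ⟨j + 1, h⟩))).card = 
          (@Finset.filter (Fin k) (fun j : Fin k => ∃ h : (j : ℕ) + 1 < k, 
          SiteV m ε (a j, μ j) (a ⟨j + 1, h⟩, μ ⟨j + 1, h⟩)) (fun _ => Classical.propDecidable _) 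
          univ).card := by
        congr
      omega
  · have h1 : probV l a μ O z ≤ 1 := by
      rw [← hit_stV l hm0 z k a μ O]
      exact hit_le_one _ _
    have h2 : 1 ≤ √(8 * ε) ^ u := one_le_pow₀ hρ1.le
    calc probV l a μ O z ≤ 1 := h1
      _ = 1 * 1 := (one_mul 1).symm
      _ ≤ _ := mul_le_mul hC1 h2 zero_le_one (by linarith)

theorem mainV' (hm : 3 ≤ m) (O : Outer m) (z : LL l) (k : ℕ) 
    (a : Fin k → Fin (m - 1) ⊕ Fin (m - 1)) (μ : Fin k → Law) (ε : ℝ) (hε : 0 < ε) (u : ℕ) 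
    (hu : u * ((rV m + 1) * (rV m + 2)) ≤ turnsV a μ ε) : 
    prob μ (fun x => phi l (diaV O (twV a x)).fPoly = z) ≤ CV m * (8 * ε) ^ ((u : ℝ) / 2) := by
  classical
  rw [← sqrt_pow _ (by positivity)]
  refine le_trans (le_of_eq ?_) (mainV l hm O z k a μ ε hε u hu)
  rw [prob_eq]
  unfold probV
  rfl

theorem finalV (hm : 3 ≤ m) (N : ℕ) (hN : 2 ≤ N) (O : Outer m) (g : ℤ[T;T⁻¹]) (k : ℕ) 
    (a : Fin k → Fin (m - 1) ⊕ Fin (m - 1)) (μ : Fin k → Law) (ε : ℝ) (hε : 0 < ε) (u : ℕ) 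
    (hu : u * ((rV m + 1) * (rV m + 2)) ≤ turnsV a μ ε) : 
    prob μ (fun x => (N : ℤ[T;T⁻¹]) ∣ (diaV O (twV a x)).fPoly - g) ≤ CV m * (8 * ε) ^ ((u : ℝ) / 2) := by
  classical
  have hlp : N.minFac.Prime := Nat.minFac_prime (by omega)
  haveI : Fact N.minFac.Prime := ⟨hlp⟩
  exact le_trans (prob_mono μ _ (fun x => phi N.minFac (diaV O (twV a x)).fPoly = phi N.minFac g) 
    (fun x _ hx => dvd_phi N.minFac (Nat.minFac_dvd N) _ _ hx)) 
    (mainV' N.minFac hm O (phi N.minFac g) k a μ ε hε u hu)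

end Pool.Agent.Y463.VT
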