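import Pool.Agent.Y463.MP.Func
import Pool.Agent.W705.JV.Defs

/-!
# Virtual letters: operators and functionals
-/

set_option autoImplicit false

namespace Pool.Agent.Y463.VT

open Finset LaurentPolynomial Pool.Agent.H891R2.Jones Pool.Agent.W639.RB Pool.Agent.Y463.SK 
  Pool.Agent.Y463.RW Pool.Agent.Y463.MP
open Pool.Agent.W705.JR (idx_lt)
open Pool.Agent.W705.JV (VLetter virt pushV drawV)

variable {m : ℕ}

/-- the transposition of the places `i` and `i + 1` -/
def tp (i : Fin (m - 1)) : Equiv.Perm (Fin m) := Equiv.swap (⟨i, by omega⟩ : Fin m) ⟨i + 1, by omega⟩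

theorem tp_tp (i : Fin (m - 1)) {α : Type*} (U : Fin m → α) : (U ∘ tp i) ∘ tp i = U := by
  funext j
  simp [tp]

/-- the operator of a virtual letter -/
noncomputable def PB (m : ℕ) (i : Fin (m - 1)) : BB m := fun N => 
  { toFun := fun g a => g (a ∘ tp i)
    map_add' := fun _ _ => rfl
    map_smul' := fun _ _ => rfl }

theorem PB_apply (i : Fin (m - 1)) (N : {N : ℕ // 3 ≤ N}) (g : (Fin m → Fin N.1) → ((Fin m → Fin N.1) → ℂ)) 
    (a : Fin m → Fin N.1) : PB m i N g a = g (a ∘ tp i) := rfl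

theorem PB_sq (i : Fin (m - 1)) : PB m i * PB m i = 1 := by
  funext N
  apply LinearMap.ext
  intro g
  funext a
  show g ((a ∘ tp i) ∘ tp i) = g a
  rw [tp_tp]

theorem Zg_virt {A : ℂ} (O : Outer m) (i : Fin (m - 1)) (N : {N : ℕ // 3 ≤ N}) 
    (g : (Fin m → Fin N.1) → ((Fin m → Fin N.1) → ℂ)) : 
    Zg A N.1 (virt O i) g = Zg A N.1 O (PB m i N g) := rfl

/-- the operator of a letter -/
noncomputable def LB (m : ℕ) : VLetter m → BB m
  | .inl x => ltr (T 1 : ℤ[T;T⁻¹]) (T (-1)) (EB m) (x.1, (x.2 : ℕ))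
  | .inr i => PB m i

/-- the operator of a word -/
noncomputable def bV (m : ℕ) (w : List (VLetter m)) : BB m := (w.map (LB m)).prod

theorem bV_append (w w' : List (VLetter m)) : bV m (w ++ w') = bV m w * bV m w' := by
  unfold bV
  rw [List.map_append, List.prod_append]

theorem bV_cons (x : VLetter m) (w : List (VLetter m)) : bV m (x :: w) = LB m x * bV m w := by
  unfold bV
  rw [List.map_cons, List.prod_cons]

theorem Zg_pushV (O : Outer m) (x : VLetter m) (N : {N : ℕ // 3 ≤ N}) 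
    (g : (Fin m → Fin N.1) → ((Fin m → Fin N.1) → ℂ)) : 
    Zg (Ar N.1) N.1 (pushV O x) g = Zg (Ar N.1) N.1 O (LB m x N g) := by
  rcases x with x | i
  · show Zg (Ar N.1) N.1 (O.push x.1 x.2) g = 
      Zg (Ar N.1) N.1 O ((ltr (T 1 : ℤ[T;T⁻¹]) (T (-1)) (EB m) (x.1, (x.2 : ℕ))) N g)
    rw [ltr_apply]
    unfold Pool.Agent.W639.RB.lt
    rcases x with ⟨p, i⟩
    cases p
    · exact Zg_push_false (A := Ar N.1) O i (idx_lt (false, i)) _
    · exact Zg_push_true (A := Ar N.1) O i (idx_lt (true, i)) _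
  · exact Zg_virt O i N g

theorem drawV_cons (O : Outer m) (x : VLetter m) (w : List (VLetter m)) : 
    drawV O (x :: w) = drawV (pushV O x) w := rfl

theorem drawV_append (O : Outer m) (w w' : List (VLetter m)) : drawV O (w ++ w') = drawV (drawV O w) w' := by
  unfold drawV
  rw [List.foldl_append]

theorem Zg_drawV (N : {N : ℕ // 3 ≤ N}) : ∀ (w : List (VLetter m)) (O : Outer m) 
    (g : (Fin m → Fin N.1) → ((Fin m → Fin N.1) → ℂ)), 
    Zg (Ar N.1) N.1 (drawV O w) g = Zg (Ar N.1) N.1 O (bV m w N g)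
  | [], O, g => rfl
  | (x :: w), O, g => by
    rw [drawV_cons, Zg_drawV N w, Zg_pushV, bV_cons, BB_mul, Module.End.mul_apply]

/-- the functional on the operators -/
noncomputable def FV (O : Outer m) (N : {N : ℕ // 3 ≤ N}) (b : BB m) : ℂ := 
  Zg (Ar N.1) N.1 O ((b N) (fun x y => ind (x = y)))

theorem FV_add (O : Outer m) (N : {N : ℕ // 3 ≤ N}) (b b' : BB m) : 
    FV O N (b + b') = FV O N b + FV O N b' := by
  unfold FV
  rw [BB_add, LinearMap.add_apply, Zg_add]

theorem FV_smul (O : Outer m) (N : {N : ℕ // 3 ≤ N}) (r : ℤ[T;T⁻¹]) (b : BB m) : 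
    FV O N (r • b) = ev N.1 N.2 r * FV O N b := by
  unfold FV
  rw [BB_smul, LinearMap.smul_apply, Zg_smul]

theorem FV_zero (O : Outer m) (N : {N : ℕ // 3 ≤ N}) : FV O N 0 = 0 := by
  have h := FV_add O N 0 0
  rw [add_zero] at h
  linear_combination -h

theorem FV_word (hm : 0 < m) (O : Outer m) (w : List (VLetter m)) (N : {N : ℕ // 3 ≤ N}) : 
    (N.1 : ℂ) * ev N.1 N.2 (drawV O w).close.bracket = FV O N (bV m w) := by
  have : Nonempty (drawV O w).P := ⟨(drawV O w).lower ⟨0, hm⟩⟩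
  rw [ev_bracket N.1 N.2 (drawV O w).close, Z_close, Zg_drawV]
  rfl

/-- the algebra generated by the Temperley–Lieb generators and the transpositions -/
noncomputable abbrev TV (m : ℕ) : Subalgebra ℤ[T;T⁻¹] (BB m) := 
  Algebra.adjoin ℤ[T;T⁻¹] (Set.range (EB m) ∪ Set.range (PB m))

/-- the span of the words -/
noncomputable def WS (m : ℕ) : Submodule ℤ[T;T⁻¹] (BB m) := 
  Submodule.span ℤ[T;T⁻¹] (Set.range (bV m))

theorem one_mem_WS : (1 : BB m) ∈ WS m := Submodule.subset_span ⟨[], rfl⟩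

theorem mul_mem_WS (x : BB m) (hx : x ∈ WS m) (y : BB m) (hy : y ∈ WS m) : x * y ∈ WS m := by
  unfold WS at *
  induction hx using Submodule.span_induction with
  | zero => rw [zero_mul]; exact Submodule.zero_mem _
  | add a b _ _ ha hb => rw [add_mul]; exact Submodule.add_mem _ ha hb
  | smul r a _ ha => rw [smul_mul_assoc]; exact Submodule.smul_mem _ _ ha
  | mem a ha =>
    obtain ⟨w, rfl⟩ := ha
    induction hy using Submodule.span_induction with
    | zero => rw [mul_zero]; exact Submodule.zero_mem _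
    | add a b _ _ ha hb => rw [mul_add]; exact Submodule.add_mem _ ha hb
    | smul r a _ ha => rw [mul_smul_comm]; exact Submodule.smul_mem _ _ ha
    | mem b hb =>
      obtain ⟨w', rfl⟩ := hb
      exact Submodule.subset_span ⟨w ++ w', bV_append w w'⟩

theorem E_mem_WS (i : ℕ) : EB m i ∈ WS m := by
  rcases Nat.lt_or_ge (i + 1) m with hi | hi
  · have h1 : EB m i = (T 1 : ℤ[T;T⁻¹]) • bV m [.inl (true, ⟨i, by omega⟩)] - 
        (T 2 : ℤ[T;T⁻¹]) • (1 : BB m) := by
      have h2 : bV m [.inl (true, ⟨i, by omega⟩)] = 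
          (T 1 : ℤ[T;T⁻¹]) • (1 : BB m) + (T (-1) : ℤ[T;T⁻¹]) • EB m i := by
        simp [bV, LB, ltr]
      rw [h2, smul_add, smul_smul, smul_smul, T_mul_inv, one_smul, ← T_add]
      norm_num
    rw [h1]
    exact Submodule.sub_mem _ (Submodule.smul_mem _ _ (Submodule.subset_span ⟨_, rfl⟩)) 
      (Submodule.smul_mem _ _ one_mem_WS)
  · rw [EB_zero m i hi]; exact Submodule.zero_mem _

theorem P_mem_WS (i : Fin (m - 1)) : PB m i ∈ WS m := 
  Submodule.subset_span ⟨[.inr i], by simp [bV, LB]⟩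

theorem mem_WS (x : BB m) (hx : x ∈ TV m) : x ∈ WS m := by
  induction hx using Algebra.adjoin_induction with
  | mem b hb => 
    rcases hb with ⟨i, rfl⟩ | ⟨i, rfl⟩
    · exact E_mem_WS i
    · exact P_mem_WS i
  | algebraMap r => 
    rw [Algebra.algebraMap_eq_smul_one]
    exact Submodule.smul_mem _ _ one_mem_WS
  | add b c _ _ hb hc => exact Submodule.add_mem _ hb hc
  | mul b c _ _ hb hc => exact mul_mem_WS _ hb _ hc

theorem coeffV (hm : 0 < m) (O : Outer m) (x : BB m) (hx : x ∈ TV m) : 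
    ∃ c : ℤ[T;T⁻¹], ∀ N : {N : ℕ // 3 ≤ N}, (N.1 : ℂ) * ev N.1 N.2 c = FV O N x := by
  have hxW := mem_WS x hx
  clear hx
  unfold WS at hxW
  induction hxW using Submodule.span_induction with
  | zero => exact ⟨0, fun N => by rw [map_zero, mul_zero, FV_zero]⟩
  | add a b _ _ ha hb => 
    obtain ⟨c1, h1⟩ := ha
    obtain ⟨c2, h2⟩ := hb
    exact ⟨c1 + c2, fun N => by rw [map_add, mul_add, h1, h2, FV_add]⟩
  | smul r a _ ha => 
    obtain ⟨c1, h1⟩ := ha
    exact ⟨r * c1, fun N => by rw [map_mul, mul_left_comm, h1, FV_smul]⟩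
  | mem a ha =>
    obtain ⟨w, rfl⟩ := ha
    exact ⟨_, FV_word hm O w⟩

/-- the functional of an outside -/
noncomputable def PhV (hm : 0 < m) (O : Outer m) : TV m →ₗ[ℤ[T;T⁻¹]] ℤ[T;T⁻¹] where
  toFun b := Classical.choose (coeffV hm O b.1 b.2)
  map_add' b b' := by
    apply ev_unique
    intro N
    rw [Classical.choose_spec (coeffV hm O (b + b').1 (b + b').2) N, map_add, mul_add,
      Classical.choose_spec (coeffV hm O b.1 b.2) N,
      Classical.choose_spec (coeffV hm O b'.1 b'.2) N]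
    exact FV_add O N b.1 b'.1
  map_smul' r b := by
    apply ev_unique
    intro N
    rw [Classical.choose_spec (coeffV hm O (r • b).1 (r • b).2) N, RingHom.id_apply, 
      smul_eq_mul, map_mul, mul_left_comm,
      Classical.choose_spec (coeffV hm O b.1 b.2) N]
    exact FV_smul O N r b.1

theorem PhV_spec (hm : 0 < m) (O : Outer m) (b : TV m) (N : {N : ℕ // 3 ≤ N}) : 
    (N.1 : ℂ) * ev N.1 N.2 (PhV hm O b) = FV O N b.1 := 
  Classical.choose_spec (coeffV hm O b.1 b.2) N

theorem PhV_one (hm : 0 < m) (O : Outer m) : PhV hm O 1 = O.close.bracket := by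
  apply ev_unique
  intro N
  have := FV_word hm O [] N
  rw [PhV_spec]
  exact this.symm

/-- the letters as elements of the algebra -/
noncomputable def LV (m : ℕ) : VLetter m → TV m
  | .inl x => ltr (T 1 : ℤ[T;T⁻¹]) (T (-1)) 
      (fun i => (⟨EB m i, Algebra.subset_adjoin (Or.inl ⟨i, rfl⟩)⟩ : TV m)) (x.1, (x.2 : ℕ))
  | .inr i => ⟨PB m i, Algebra.subset_adjoin (Or.inr ⟨i, rfl⟩)⟩

theorem LV_val (x : VLetter m) : (LV m x : BB m) = LB m x := by
  rcases x with x | i
  · unfold LV LB ltr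
    simp only
    split_ifs <;> rfl
  · rfl

theorem PhV_push (hm : 0 < m) (O : Outer m) (x : VLetter m) (b : TV m) : 
    PhV hm (pushV O x) b = PhV hm O (LV m x * b) := by
  apply ev_unique
  intro N
  rw [PhV_spec, PhV_spec]
  have h1 : ((LV m x * b : TV m) : BB m) = LB m x * b.1 := by
    rw [Subalgebra.coe_mul, LV_val]
  rw [h1]
  unfold FV
  rw [Zg_pushV, BB_mul, Module.End.mul_apply]

end Pool.Agent.Y463.VT
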