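import Pool.Agent.Y463.VT.Act
import Pool.Agent.Y463.VT.GDefs

/-!
# Words of virtual crossings and the symmetric group
-/

set_option autoImplicit false

namespace Pool.Agent.Y463.VT

open Finset LaurentPolynomial TensorProduct Pool.Agent.H891R2.Jones Pool.Agent.W639.RB Pool.Agent.Y463.SK 
  Pool.Agent.Y463.RW Pool.Agent.Y463.MP Pool.Agent.Y463.UT
open Pool.Agent.W705.JR (idx_lt inv' sgn sw cst2 push_up push_length L2 sh sh_mul sh_one sh_norm sh_apply)
open Pool.Agent.W705.JV (VLetter virt pushV drawV trV)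

variable {m : ℕ}

/-- the virtual letters of a word of places -/
def vl (v : List (Fin (m - 1))) : List (VLetter m) := v.map Sum.inr

theorem vl_cons (i : Fin (m - 1)) (v : List (Fin (m - 1))) : vl (i :: v) = .inr i :: vl v := rfl

theorem vl_append (v v' : List (Fin (m - 1))) : vl (v ++ v') = vl v ++ vl v' := by
  unfold vl; rw [List.map_append]

theorem pm_cons (i : Fin (m - 1)) (v : List (Fin (m - 1))) : pm (i :: v) = tp i * pm v := by
  unfold pm
  rw [List.map_cons, List.prod_cons]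
  rfl

theorem pm_append (v v' : List (Fin (m - 1))) : pm (v ++ v') = pm v * pm v' := by
  unfold pm; rw [List.map_append, List.prod_append]

theorem bV_virt (v : List (Fin (m - 1))) (N : {N : ℕ // 3 ≤ N}) 
    (g : (Fin m → Fin N.1) → ((Fin m → Fin N.1) → ℂ)) (a : Fin m → Fin N.1) : 
    bV m (vl v) N g a = g (a ∘ pm v) := by
  induction v generalizing g a with
  | nil => rfl
  | cons i v ih => 
    rw [vl_cons, bV_cons, BB_mul, Module.End.mul_apply]
    show (bV m (vl v) N g) (a ∘ tp i) = _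
    rw [ih, pm_cons]
    rfl

theorem wV_val (w : List (VLetter m)) : (wV m w : BB m) = bV m w := by
  induction w with
  | nil => rfl
  | cons x w ih => rw [wV_cons, bV_cons, Subalgebra.coe_mul, LV_val, ih]

theorem wV_congr (v v' : List (Fin (m - 1))) (h : pm v = pm v') : wV m (vl v) = wV m (vl v') := by
  apply Subtype.ext
  rw [wV_val, wV_val]
  funext N
  apply LinearMap.ext
  intro g
  funext a
  rw [bV_virt, bV_virt, h]

theorem upd_comp {N : ℕ} (a : Fin m → Fin N) (π : Equiv.Perm (Fin m)) (p q : Fin m) (c : Fin N) : 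
    upd (a ∘ π) p q c = (upd a (π p) (π q) c) ∘ π := by
  funext j
  simp only [upd, Function.comp_apply, EmbeddingLike.apply_eq_iff_eq]

/-- the places of a pair -/
theorem pair_cases (i k : Fin (m - 1)) (π : Equiv.Perm (Fin m)) (h : (pair i).map π.toEmbedding = pair k) : 
    (π ⟨i, by omega⟩ = ⟨k, by omega⟩ ∧ π ⟨i + 1, by omega⟩ = ⟨k + 1, by omega⟩) ∨ 
    (π ⟨i, by omega⟩ = ⟨k + 1, by omega⟩ ∧ π ⟨i + 1, by omega⟩ = ⟨k, by omega⟩) := by
  unfold pair at h
  rw [Finset.map_insert, Finset.map_singleton] at h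
  have h1 : π ⟨i, by omega⟩ ∈ ({⟨k, by omega⟩, ⟨k + 1, by omega⟩} : Finset (Fin m)) := by
    rw [← h]; exact Finset.mem_insert_self _ _
  have h2 : π ⟨i + 1, by omega⟩ ∈ ({⟨k, by omega⟩, ⟨k + 1, by omega⟩} : Finset (Fin m)) := by
    rw [← h]; exact Finset.mem_insert_of_mem (Finset.mem_singleton_self _)
  have hne : π ⟨i, by omega⟩ ≠ π ⟨i + 1, by omega⟩ := by
    intro h3
    have := congrArg Fin.val (π.injective h3)
    simp at this
  rw [Finset.mem_insert, Finset.mem_singleton] at h1 h2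
  rcases h1 with h1 | h1 <;> rcases h2 with h2 | h2
  · exact absurd (h1.trans h2.symm) hne
  · exact Or.inl ⟨h1, h2⟩
  · exact Or.inr ⟨h1, h2⟩
  · exact absurd (h1.trans h2.symm) hne

theorem EB_eq (i : Fin (m - 1)) (N : {N : ℕ // 3 ≤ N}) : 
    EB m i N = EE ⟨i, by omega⟩ ⟨i + 1, by omega⟩ := by
  show ee m N.1 ((Fin m → Fin N.1) → ℂ) i = _
  unfold ee
  rw [dif_pos (by omega)]

theorem bV_E (v : List (Fin (m - 1))) (i k : Fin (m - 1)) 
    (h : (pair i).map (pm v).toEmbedding = pair k) : 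
    bV m (vl v) * EB m i = EB m k * bV m (vl v) := by
  classical
  funext N
  apply LinearMap.ext
  intro g
  funext a
  rw [BB_mul, BB_mul, Module.End.mul_apply, Module.End.mul_apply, bV_virt, EB_eq, EB_eq]
  have key : ∀ p q : Fin m, (EE p q g) (a ∘ pm v) = (EE (pm v p) (pm v q) (bV m (vl v) N g)) a := by
    intro p q
    rw [EE_apply, EE_apply]
    simp only [Function.comp_apply, upd_comp, bV_virt]
  rw [key]
  rcases pair_cases i k (pm v) h with ⟨h1, h2⟩ | ⟨h1, h2⟩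
  · rw [h1, h2]
  · rw [h1, h2, EE_symm]

theorem wV_E (v : List (Fin (m - 1))) (i k : Fin (m - 1)) 
    (h : (pair i).map (pm v).toEmbedding = pair k) : 
    wV m (vl v) * LV m (.inl (true, i)) = LV m (.inl (true, k)) * wV m (vl v) := by
  have h1 : wV m (vl v) * EV m i = EV m k * wV m (vl v) := by
    apply Subtype.ext
    rw [Subalgebra.coe_mul, Subalgebra.coe_mul, wV_val]
    exact bV_E v i k h
  have h3 : ∀ i : Fin (m - 1), LV m (.inl (true, i)) = 
      (T 1 : ℤ[T;T⁻¹]) • (1 : TV m) + (T (-1) : ℤ[T;T⁻¹]) • EV m i := by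
    intro i
    rw [LV_inl]
    unfold ltr
    simp
  rw [h3, h3, mul_add, add_mul, mul_smul_comm, mul_smul_comm, smul_mul_assoc, smul_mul_assoc, one_mul, 
    mul_one, h1]

/-- every permutation is the permutation of a word of virtual crossings -/
theorem exists_word (hm : 0 < m) (π : Equiv.Perm (Fin m)) : ∃ v : List (Fin (m - 1)), pm v = π := by
  obtain ⟨n, rfl⟩ : ∃ n, m = n + 1 := ⟨m - 1, by omega⟩
  have h : π ∈ Submonoid.closure (Set.range fun i : Fin n ↦ Equiv.swap i.castSucc i.succ) := by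
    rw [Equiv.Perm.mclosure_swap_castSucc_succ]; trivial
  induction h using Submonoid.closure_induction with
  | mem x hx => 
    obtain ⟨i, rfl⟩ := hx
    refine ⟨[⟨i, by omega⟩], ?_⟩
    unfold pm
    rw [List.map_singleton, List.prod_singleton]
    rfl
  | one => exact ⟨[], rfl⟩
  | mul x y _ _ hx hy =>
    obtain ⟨v, rfl⟩ := hx
    obtain ⟨v', rfl⟩ := hy
    exact ⟨v ++ v', pm_append v v'⟩

/-- three different points are moved to three different points -/
theorem exists_perm3 {α : Type*} [DecidableEq α] (x y z a b c : α) (hxy : x ≠ y) (hxz : x ≠ z) (hyz : y ≠ z) 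
    (hab : a ≠ b) (hac : a ≠ c) (hbc : b ≠ c) : 
    ∃ π : Equiv.Perm α, π x = a ∧ π y = b ∧ π z = c := by
  set s1 : Equiv.Perm α := Equiv.swap x a with hs1
  have e1 : s1 x = a := Equiv.swap_apply_left x a
  set b1 := s1⁻¹ b with hb1
  have hb1' : s1 b1 = b := by rw [hb1]; exact Equiv.apply_symm_apply s1 b
  have hb1x : b1 ≠ x := by
    intro h; rw [h, e1] at hb1'; exact hab hb1'
  set s2 : Equiv.Perm α := Equiv.swap y b1 with hs2
  have e2 : s2 y = b1 := Equiv.swap_apply_left y b1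
  have e3 : s2 x = x := Equiv.swap_apply_of_ne_of_ne hxy hb1x.symm
  set c1 := (s1 * s2)⁻¹ c with hc1
  have hc1' : s1 (s2 c1) = c := by
    rw [hc1, ← Equiv.Perm.mul_apply]; exact Equiv.apply_symm_apply (s1 * s2) c
  have hc1x : c1 ≠ x := by
    intro h; rw [h, e3, e1] at hc1'; exact hac hc1'
  have hc1y : c1 ≠ y := by
    intro h; rw [h, e2, hb1'] at hc1'; exact hbc hc1'
  refine ⟨s1 * s2 * Equiv.swap z c1, ?_, ?_, ?_⟩
  · rw [Equiv.Perm.mul_apply, Equiv.Perm.mul_apply, Equiv.swap_apply_of_ne_of_ne hxz hc1x.symm, e3, e1]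
  · rw [Equiv.Perm.mul_apply, Equiv.Perm.mul_apply, Equiv.swap_apply_of_ne_of_ne hyz hc1y.symm, e2, hb1']
  · rw [Equiv.Perm.mul_apply, Equiv.Perm.mul_apply, Equiv.swap_apply_left, hc1']

/-! ### on the fibred space -/

section fib

variable (L : Type) [Field L] [Algebra ℤ[T;T⁻¹] L]

/-- the linear map of a word -/
noncomputable def lw (w : TV m) : (TVL L m × L) →ₗ[L] (TVL L m × L) :=
  LinearMap.prodMap (LinearMap.mulLeft L (inV L m w)) LinearMap.id

theorem lw_apply (w : TV m) (v : TVL L m × L) : lw L w v = (inV L m w * v.1, v.2) := rfl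

theorem tp_inv (i : Fin (m - 1)) : (tp i)⁻¹ = tp i := Equiv.swap_inv _ _

theorem wVX_virt (v : List (Fin (m - 1))) (y : XX L (TVL L m × L) (Fin m → Bool)) : 
    wVX L (vl v) y = (y.1 ∘ ⇑(pm v)⁻¹, y.2.map (lw L (wV m (vl v)))) := by
  induction v with
  | nil =>
    refine Prod.ext rfl ?_
    have h1 : lw L (wV m (vl ([] : List (Fin (m - 1))))) = LinearMap.id := by
      apply LinearMap.ext
      intro v
      rw [lw_apply]
      have h2 : wV m (vl ([] : List (Fin (m - 1)))) = 1 := rfl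
      rw [h2, map_one, one_mul]
      rfl
    rw [h1, Submodule.map_id]
    rfl
  | cons i v ih =>
    rw [vl_cons, wVX_cons, Equiv.Perm.mul_apply, ih]
    refine Prod.ext ?_ ?_
    · show (y.1 ∘ ⇑(pm v)⁻¹) ∘ tp i = y.1 ∘ ⇑(pm (i :: v))⁻¹
      rw [pm_cons, _root_.mul_inv_rev, tp_inv]
      rfl
    · show (y.2.map (lw L (wV m (vl v)))).map (hX L i : (TVL L m × L) →ₗ[L] (TVL L m × L)) = 
        y.2.map (lw L (wV m (.inr i :: vl v)))
      rw [← Submodule.map_comp]
      congr 1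
      apply LinearMap.ext
      intro v'
      rw [LinearMap.comp_apply, lw_apply, lw_apply]
      show hX L i _ = _
      rw [hX_apply]
      refine Prod.ext ?_ rfl
      show pM L i (inV L m (wV m (vl v)) * v'.1) = inV L m (wV m (.inr i :: vl v)) * v'.1
      rw [pM_apply, wV_cons, map_mul, mul_assoc]
      rfl

theorem wVX_congr (v v' : List (Fin (m - 1))) (h : pm v = pm v') : wVX L (vl v) = wVX L (vl v') := by
  apply Equiv.ext
  intro y
  rw [wVX_virt, wVX_virt, h, wV_congr v v' h]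

theorem cst2_perm (i k : Fin (m - 1)) (π : Equiv.Perm (Fin m)) (h : (pair i).map π.toEmbedding = pair k) 
    (U : Fin m → Bool) : cst2 (true, k) (U ∘ ⇑π⁻¹) = cst2 (true, i) U := by
  have hi1 : (i : ℕ) < m := by omega
  have hi2 : (i : ℕ) + 1 < m := by omega
  have hk1 : (k : ℕ) < m := by omega
  have hk2 : (k : ℕ) + 1 < m := by omega
  show pat (U ∘ ⇑π⁻¹) k * pat (U ∘ ⇑π⁻¹) (k + 1) = pat U i * pat U (i + 1)
  unfold pat
  rw [dif_pos hk1, dif_pos hk2, dif_pos hi1, dif_pos hi2, Function.comp_apply, Function.comp_apply]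
  rcases pair_cases i k π h with ⟨h1, h2⟩ | ⟨h1, h2⟩
  · have e1 : π⁻¹ ⟨k, hk1⟩ = ⟨i, hi1⟩ := by rw [Equiv.Perm.inv_eq_iff_eq]; exact h1.symm
    have e2 : π⁻¹ ⟨k + 1, hk2⟩ = ⟨i + 1, hi2⟩ := by rw [Equiv.Perm.inv_eq_iff_eq]; exact h2.symm
    rw [e1, e2]
  · have e1 : π⁻¹ ⟨k + 1, hk2⟩ = ⟨i, hi1⟩ := by rw [Equiv.Perm.inv_eq_iff_eq]; exact h1.symm
    have e2 : π⁻¹ ⟨k, hk1⟩ = ⟨i + 1, hi2⟩ := by rw [Equiv.Perm.inv_eq_iff_eq]; exact h2.symm
    rw [e1, e2, mul_comm]

theorem sw_perm (i k : Fin (m - 1)) (π : Equiv.Perm (Fin m)) (h : (pair i).map π.toEmbedding = pair k) : 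
    sw (true, i) * π⁻¹ = π⁻¹ * sw (true, k) := by
  have h0 : π * sw (true, i) = sw (true, k) * π := by
    show π * Equiv.swap ⟨i, by omega⟩ ⟨i + 1, by omega⟩ = Equiv.swap ⟨k, by omega⟩ ⟨k + 1, by omega⟩ * π
    rw [Equiv.mul_swap_eq_swap_mul]
    rcases pair_cases i k π h with ⟨h1, h2⟩ | ⟨h1, h2⟩
    · rw [h1, h2]
    · rw [h1, h2, Equiv.swap_comm]
  rw [eq_inv_mul_iff_mul_eq, ← mul_assoc, h0, mul_assoc, mul_inv_cancel, mul_one]

theorem conj_sX (v : List (Fin (m - 1))) (i k : Fin (m - 1)) 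
    (h : (pair i).map (pm v).toEmbedding = pair k) : 
    wVX L (vl v) * sX (DV L m) (true, i) = sX (DV L m) (true, k) * wVX L (vl v) := by
  apply Equiv.ext
  intro y
  rw [Equiv.Perm.mul_apply, Equiv.Perm.mul_apply, wVX_virt, wVX_virt, sX_apply, sX_apply]
  have hU : (y.1 ∘ sw (true, i)) ∘ ⇑(pm v)⁻¹ = (y.1 ∘ ⇑(pm v)⁻¹) ∘ sw (true, k) := by
    have h1 := sw_perm i k (pm v) h
    funext j
    have h2 := congrArg (fun π : Equiv.Perm (Fin m) => y.1 (π j)) h1
    exact h2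
  refine Prod.ext hU ?_
  show (y.2.map (gX (DV L m) (true, i) (y.1 ∘ sw (true, i)) : (TVL L m × L) →ₗ[L] (TVL L m × L))).map 
      (lw L (wV m (vl v))) = (y.2.map (lw L (wV m (vl v)))).map 
      (gX (DV L m) (true, k) ((y.1 ∘ ⇑(pm v)⁻¹) ∘ sw (true, k)) : (TVL L m × L) →ₗ[L] (TVL L m × L))
  rw [← Submodule.map_comp, ← Submodule.map_comp, ← hU]
  congr 1
  apply LinearMap.ext
  intro z
  rw [LinearMap.comp_apply, LinearMap.comp_apply, lw_apply]
  show lw L (wV m (vl v)) (gX (DV L m) (true, i) (y.1 ∘ sw (true, i)) z) = 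
    gX (DV L m) (true, k) ((y.1 ∘ sw (true, i)) ∘ ⇑(pm v)⁻¹) _
  rw [gX_apply, gX_apply, lw_apply, cst2_perm i k (pm v) h]
  refine Prod.ext ?_ rfl
  show inV L m (wV m (vl v)) * (sg ((DV L m).Bb true) (DV L m).e i * z.1) = 
    sg ((DV L m).Bb true) (DV L m).e k * (inV L m (wV m (vl v)) * z.1)
  have e1 := sg_eqV L (m := m) (true, i)
  have e2 := sg_eqV L (m := m) (true, k)
  rw [e1, e2, ← mul_assoc, ← mul_assoc, ← map_mul, ← map_mul, wV_E v i k h]

end fib

/-! ### averages of conjugates -/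

theorem av_conj {X : Type*} (g σ : Equiv.Perm X) (μ : Law) (f : L2 X) : 
    av (g * σ * g⁻¹) μ f = sh g (av σ μ (sh g⁻¹ f)) := by
  apply lp.ext
  funext x
  rw [av_apply, sh_apply, av_apply]
  refine Finset.sum_congr rfl fun n _ => ?_
  rw [sh_apply]
  congr 2
  rw [conj_zpow, _root_.mul_inv_rev, _root_.mul_inv_rev, inv_inv]
  rfl

end Pool.Agent.Y463.VT
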